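import Pool.Agent.Helper84.Int.Core
import Pool.Agent.Helper68.Stab.TopG

/-! MP_ab4156_gt, PROJECT T, layer A. Levels of spectra with compact models. -/

open CategoryTheory Topology Filter Set Opposite

noncomputable section

namespace Pool.Agent.Helper84.Int

open Pool.Agent.Helper1.Stab

theorem gen_of_st {G : Prespectrum} (L : Levels G) (n : ℕ) : ∀ (b : ℕ) (K : Test)
    (x : ((hP.obj G).h b).obj (op K)), G.St n b K x →
    Gen (Upto (S := hP.obj G) (fun n => ⟨n, L.T n, L.u n⟩) (b + n)) b K x := by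
  induction n with
  | zero =>
    rintro b K x ⟨f, rfl⟩
    rw [L.cl_fac]
    exact Gen.map b K (L.T b) (ObjectProperty.homMk (L.fac b f).cls) _
      (Gen.base _ _ _ ⟨b, le_rfl, rfl⟩)
  | succ n ih =>
    intro b K x h
    refine Gen.unsig b K x (Gen.mono ?_ (ih (b + 1) (Test.cx.obj K) _ h))
    rintro c L' y ⟨m, hm, h⟩
    exact ⟨m, by omega, h⟩

theorem hasLevels_of_levels {G : Prespectrum} (L : Levels G) : HasLevels (hP.obj G) :=
  ⟨fun n => ⟨n, L.T n, L.u n⟩, fun b K x => by
    obtain ⟨n, hn⟩ := G.exists_st b K x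
    exact ⟨_, gen_of_st L n b K x hn⟩⟩

/-- spectra with a compact model have levels -/
theorem hasLevels_of_model {G X : Prespectrum} (hG : IsCompactLevel G) (w : G ⟶ X)
    (hw : stableEquiv w) : HasLevels (hP.obj X) := by
  obtain ⟨L⟩ := hG.levels
  have : IsIso (hP.map w) := (stableEquiv_iff w).1 hw
  exact (hasLevels_of_levels L).of_iso (asIso (hP.map w))

end Pool.Agent.Helper84.Int
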