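import Pool.Agent.Helper84.Int.Core
import Mathlib.CategoryTheory.Preadditive.Biproducts
import Mathlib.Data.Nat.Bits

/-! MP_ab4156_gt, PROJECT T, layer A. The swindle and the final algebra. -/

open CategoryTheory Topology Filter Set Opposite

noncomputable section

namespace Pool.Agent.Helper84.Int

open Pool.Agent.Helper1.Stab

/-! ## Biproducts -/

/-- the bicone of a sum of two objects -/
def boolBicone {A C B : GF} (T : IsSum (fun t : Bool => cond t A C) B) :
    Limits.BinaryBicone A C where
  pt := B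
  fst := T.pr true
  snd := T.pr false
  inl := T.inj true
  inr := T.inj false
  inl_fst := T.inj_pr true
  inl_snd := T.inj_pr_ne true false (by decide)
  inr_fst := T.inj_pr_ne false true (by decide)
  inr_snd := T.inj_pr false

theorem bool_total {A C B : GF} (T : IsSum (fun t : Bool => cond t A C) B) :
    T.pr true ≫ T.inj true + T.pr false ≫ T.inj false = 𝟙 B := by
  refine sum_hom_ext T fun t => ?_
  rw [Preadditive.comp_add, ← Category.assoc, ← Category.assoc, Category.comp_id]
  cases t
  · have h1 := T.inj_pr_ne false true (by decide)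
    have h2 := T.inj_pr false
    rw [h1, h2, Limits.zero_comp, zero_add]
    exact Category.id_comp _
  · have h1 := T.inj_pr_ne true false (by decide)
    have h2 := T.inj_pr true
    rw [h1, h2, Limits.zero_comp, add_zero]
    exact Category.id_comp _

instance : Limits.HasBinaryBiproducts GF where
  has_binary_biproduct A C := by
    obtain ⟨B, ⟨T⟩⟩ := exists_sum (fun t : Bool => cond t A C)
    exact Limits.hasBinaryBiproduct_of_total (boolBicone T) (bool_total T)

/-- the identification of a sum of two objects with the biproduct -/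
def isoBool {A C B : GF} (T : IsSum (fun t : Bool => cond t A C) B) : B ≅ A ⊞ C where
  hom := Limits.biprod.lift (T.pr true) (T.pr false)
  inv := Limits.biprod.desc (T.inj true) (T.inj false)
  hom_inv_id := by
    rw [Limits.biprod.lift_desc]
    exact bool_total T
  inv_hom_id := by
    refine Limits.biprod.hom_ext' _ _ ?_ ?_
    · rw [Limits.biprod.inl_desc_assoc, Category.comp_id]
      refine Limits.biprod.hom_ext _ _ ?_ ?_
      · rw [Category.assoc, Limits.biprod.lift_fst, Limits.biprod.inl_fst]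
        exact T.inj_pr true
      · rw [Category.assoc, Limits.biprod.lift_snd, Limits.biprod.inl_snd]
        exact T.inj_pr_ne true false (by decide)
    · rw [Limits.biprod.inr_desc_assoc, Category.comp_id]
      refine Limits.biprod.hom_ext _ _ ?_ ?_
      · rw [Category.assoc, Limits.biprod.lift_fst, Limits.biprod.inr_fst]
        exact T.inj_pr_ne false true (by decide)
      · rw [Category.assoc, Limits.biprod.lift_snd, Limits.biprod.inr_snd]
        exact T.inj_pr false

/-- adding one summand -/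
def sumOption {ι : Type} {X : ι → GF} {A : GF} (T : IsSum X A) (S₀ : GF) :
    IsSum (fun o : Option ι => o.elim S₀ X) (S₀ ⊞ A) where
  inj o := match o with
    | none => Limits.biprod.inl
    | some i => T.inj i ≫ Limits.biprod.inr
  pr o := match o with
    | none => Limits.biprod.fst
    | some i => Limits.biprod.snd ≫ T.pr i
  inj_pr o := by
    cases o with
    | none => exact Limits.biprod.inl_fst
    | some i =>
      change (T.inj i ≫ Limits.biprod.inr) ≫ Limits.biprod.snd ≫ T.pr i = 𝟙 (X i)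
      rw [Category.assoc, Limits.biprod.inr_snd_assoc, T.inj_pr]
  inj_pr_ne o o' h := by
    cases o with
    | none =>
      cases o' with
      | none => exact absurd rfl h
      | some i =>
        change Limits.biprod.inl ≫ Limits.biprod.snd ≫ T.pr i = 0
        rw [Limits.biprod.inl_snd_assoc, Limits.zero_comp]
    | some i =>
      cases o' with
      | none =>
        change (T.inj i ≫ Limits.biprod.inr) ≫ Limits.biprod.fst = 0
        rw [Category.assoc, Limits.biprod.inr_fst, Limits.comp_zero]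
      | some j =>
        change (T.inj i ≫ Limits.biprod.inr) ≫ Limits.biprod.snd ≫ T.pr j = 0
        rw [Category.assoc, Limits.biprod.inr_snd_assoc,
          T.inj_pr_ne i j fun h' => h (congrArg some h')]
  fin b K x := by
    obtain ⟨F, hF⟩ := T.fin' (GF.evm b K Limits.biprod.snd x)
    refine ⟨Finset.insertNone F, ?_⟩
    rw [Finset.sum_insertNone]
    have h1 : x = GF.evm b K (Limits.biprod.fst ≫ Limits.biprod.inl +
        Limits.biprod.snd ≫ Limits.biprod.inr : S₀ ⊞ A ⟶ S₀ ⊞ A) x := by
      rw [Limits.biprod.total, GF.evm_id]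
    have h2 : GF.evm b K Limits.biprod.inr (GF.evm b K Limits.biprod.snd x) =
        ∑ i ∈ F, GF.evm b K ((Limits.biprod.snd ≫ T.pr i) ≫ T.inj i ≫ Limits.biprod.inr :
          S₀ ⊞ A ⟶ S₀ ⊞ A) x := by
      conv_lhs => rw [hF]
      rw [map_sum]
      rfl
    refine h1.trans ?_
    rw [GF.evm_add, GF.evm_comp _ Limits.biprod.inr, h2]
    rfl

/-! ## The swindle -/

/-- `A` is a sum of countably many copies of itself -/
theorem self_sum {M A : GF} (T : IsSum (fun _ : ℕ => M) A) :
    Nonempty (IsSum (fun _ : ℕ => A) A) := by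
  obtain ⟨B, ⟨TB⟩⟩ := exists_sum (fun _ : ℕ => A)
  obtain ⟨e⟩ : Nonempty (ℕ ≃ Σ _ : ℕ, ℕ) :=
    ⟨(Equiv.sigmaEquivProd ℕ ℕ |>.trans Nat.pairEquiv).symm⟩
  obtain ⟨φ⟩ := sum_iso (reindex (TB.transS fun _ => T) e) T fun _ => Iso.refl M
  exact ⟨TB.congrObj φ⟩

/-- (SWINDLE) -/
theorem swindle {S M A : GF} (T : IsSum (fun _ : ℕ => M) A) (h1 : Ret S A) (h2 : Ret A S) :
    Nonempty (S ≅ A) := by
  obtain ⟨C, ⟨TC⟩⟩ := exists_compl h1
  obtain ⟨D, ⟨TD⟩⟩ := exists_compl h2
  obtain ⟨TA⟩ := self_sum T
  -- `A ⊞ A ≅ A`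
  obtain ⟨a⟩ : Nonempty (A ⊞ A ≅ A) := by
    let e : Option ℕ ≃ ℕ :=
      { toFun := fun o => match o with
          | none => 0
          | some n => n + 1
        invFun := fun n => match n with
          | 0 => none
          | n + 1 => some n
        left_inv := by rintro (_ | n) <;> rfl
        right_inv := by rintro (_ | n) <;> rfl }
    exact sum_iso (sumOption TA A) (reindex TA e) fun o => eqToIso (by cases o <;> rfl)
  -- `S ⊞ A ≅ A`
  obtain ⟨b⟩ : Nonempty (S ⊞ A ≅ A) := by
    let T1 := TA.transS fun _ => TC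
    let e : Option (Σ _ : ℕ, Bool) ≃ Σ _ : ℕ, Bool :=
      { toFun := fun o => match o with
          | none => ⟨0, true⟩
          | some ⟨n, true⟩ => ⟨n + 1, true⟩
          | some ⟨n, false⟩ => ⟨n, false⟩
        invFun := fun a => match a with
          | ⟨0, true⟩ => none
          | ⟨n + 1, true⟩ => some ⟨n, true⟩
          | ⟨n, false⟩ => some ⟨n, false⟩
        left_inv := by
          rintro (_ | ⟨_ | n, _ | _⟩) <;> rfl
        right_inv := by
          rintro ⟨_ | n, _ | _⟩ <;> rfl }
    refine sum_iso (sumOption T1 S) (reindex T1 e) fun o => eqToIso ?_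
    rcases o with _ | ⟨n, _ | _⟩ <;> rfl
  -- `A ⊞ S ≅ S`
  have c : A ⊞ S ≅ S :=
    Limits.biprod.mapIso (Iso.refl A) (isoBool TD) ≪≫ (Limits.biprod.associator A A D).symm ≪≫
      Limits.biprod.mapIso a (Iso.refl D) ≪≫ (isoBool TD).symm
  exact ⟨c.symm ≪≫ Limits.biprod.braiding A S ≪≫ b⟩

/-! ## The final algebra -/

/-- a sum over a part of the index set is a retract -/
theorem sub_sum {ι κ : Type} {X : ι → GF} {A B : GF} (T : IsSum X A) (φ : κ → ι)
    (hφ : Function.Injective φ) (T' : IsSum (fun k => X (φ k)) B) : Ret B A := by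
  classical
  obtain ⟨Φ, hΦ⟩ := T'.desc fun k => T.inj (φ k)
  have hlf : LF (fun k => T.pr (φ k)) := by
    intro b K y
    obtain ⟨F, hF⟩ := T.fin' y
    refine ⟨F.preimage φ hφ.injOn, fun k hk => ?_⟩
    exact T.pr_inj_apply hF fun h => hk (Finset.mem_preimage.2 h)
  obtain ⟨Ψ, hΨ⟩ := sum_lift T' (fun k => T.pr (φ k)) hlf
  refine ⟨Φ, Ψ, sum_hom_ext T' fun k => sum_hom_ext' T' fun l => ?_⟩
  have h1 : (T'.inj k ≫ Φ ≫ Ψ) ≫ T'.pr l = T.inj (φ k) ≫ T.pr (φ l) := by
    rw [Category.assoc, Category.assoc, hΨ, ← Category.assoc, hΦ]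
  rw [h1, Category.comp_id]
  by_cases h : k = l
  · subst h
    rw [T.inj_pr]
    exact (T'.inj_pr k).symm
  · rw [T.inj_pr_ne _ _ fun h' => h (hφ h'), T'.inj_pr_ne k l h]

/-- `X` or its shift -/
def par (X : GF) (t : Bool) : GF := cond t X.shift X

/-- a parity preserving injection -/
def emb {ι : Type} [Encodable ι] (p : ι → Bool) (a : ι) : ℕ := Nat.bit (p a) (Encodable.encode a)

theorem emb_injective {ι : Type} [Encodable ι] (p : ι → Bool) : Function.Injective (emb p) := by
  intro a b h
  have h1 : (Nat.bit (p a) (Encodable.encode a)).div2 = (Nat.bit (p b) (Encodable.encode b)).div2 :=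
    congrArg Nat.div2 h
  rw [Nat.div2_bit, Nat.div2_bit] at h1
  exact Encodable.encode_injective h1

theorem bodd_emb {ι : Type} [Encodable ι] (p : ι → Bool) (a : ι) : (emb p a).bodd = p a :=
  Nat.bodd_bit _ _

/-- sums of copies of `X` and its shift over countable index sets are retracts of the sum over
`ℕ` -/
theorem ret_par {X E B : GF} (TE : IsSum (fun a : ℕ => par X a.bodd) E) {ι : Type} [Countable ι]
    (p : ι → Bool) (TB : IsSum (fun a => par X (p a)) B) : Ret B E := by
  obtain ⟨_⟩ := nonempty_encodable ι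
  refine sub_sum TE (emb p) (emb_injective p) (TB.congrS fun a => eqToIso ?_)
  rw [bodd_emb]

/-- (FINAL ALGEBRA) -/
theorem final_algebra {S X M A B : GF} (hS : HasLevels S) {Z : ℕ → GF} (i : ∀ k, Z k ⟶ S)
    (r : ∀ k, S ⟶ Z k) (h1 : ∀ k, i k ≫ r k = 𝟙 _) (h0 : ∀ k l, k < l → i l ≫ r k = 0)
    (hf : LF r) (eZ : ∀ k, Nonempty (Z k ≅ par X k.bodd))
    (TA : IsSum (fun _ : ℕ => M) A) (hSA : Ret S A)
    {ι : Type} [Countable ι] {Y : ι → GF} (p : ι → Bool) (hY : ∀ a, Nonempty (Y a ≅ par X (p a)))
    (TB : IsSum Y B) (hMB : Ret M B) : Nonempty (S ≅ A) := by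
  refine swindle TA hSA ?_
  obtain ⟨k, -, hkc, hk⟩ := core hS i r h1 h0 hf (fun a => {n | n.bodd = a.bodd}) (by
    intro a N
    refine ⟨Nat.bit a.bodd N, ?_, Nat.bodd_bit _ _⟩
    rw [Nat.bit_val]
    omega)
  obtain ⟨E, ⟨TE⟩⟩ := exists_sum (fun a : ℕ => par X a.bodd)
  have e1 : ∀ a, Nonempty (par X a.bodd ≅ Z (k a)) := by
    intro a
    obtain ⟨e⟩ := eZ (k a)
    have h2 : (k a).bodd = a.bodd := hkc a
    rw [h2] at e
    exact ⟨e.symm⟩
  have hES : Ret E S := hk E (TE.congrS fun a => (e1 a).some)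
  have hME : Ret M E := hMB.trans (ret_par TE p (TB.congrS fun a => (hY a).some))
  -- the countable power
  obtain ⟨E2, ⟨TE2⟩⟩ := exists_sum (fun _ : ℕ => E)
  have hAE2 : Ret A E2 := sum_ret TA TE2 fun _ => hME
  have hE2E : Ret E2 E := ret_par TE (fun a : Σ _ : ℕ, ℕ => a.2.bodd) (TE2.transS fun _ => TE)
  exact (hAE2.trans hE2E).trans hES

end Pool.Agent.Helper84.Int
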