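import Pool.Agent.Helper84.Int.Sums
import Mathlib.Data.DFinsupp.BigOperators
import Mathlib.Logic.Equiv.Nat

/-! MP_ab4156_gt, PROJECT T, layer A. Direct sums, complements, the sparse trick. -/

open CategoryTheory Topology Filter Set Opposite

noncomputable section

namespace Pool.Agent.Helper84.Int

open Pool.Agent.Helper1.Stab

/-! ## Direct sums exist -/

section
variable {ι : Type} (X : ι → GF)

/-- the functors of a direct sum -/
def dsFun (b : ℕ) : Testᵒᵖ ⥤ AddCommGrpCat.{0} where
  obj K := AddCommGrpCat.of (Π₀ i, (((X i).h b).obj K : Type))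
  map f := AddCommGrpCat.ofHom (DFinsupp.mapRange.addMonoidHom fun i => (((X i).h b).map f).hom)
  map_id K := by
    refine AddCommGrpCat.hom_ext (AddMonoidHom.ext fun y => ?_)
    refine DFinsupp.ext fun i => ?_
    exact congrArg (fun t => t.hom (y i)) (((X i).h b).map_id K)
  map_comp f g := by
    refine AddCommGrpCat.hom_ext (AddMonoidHom.ext fun y => ?_)
    refine DFinsupp.ext fun i => ?_
    exact congrArg (fun t => t.hom (y i)) (((X i).h b).map_comp f g)

/-- the direct sum -/
def dsGF : GF where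
  h b := dsFun X b
  σ b := NatIso.ofComponents (fun K => (DFinsupp.mapRange.addEquiv fun i =>
      (((X i).σ b).app K).addCommGroupIsoToAddEquiv).toAddCommGrpIso)
    (by
      intro K L f
      refine AddCommGrpCat.hom_ext (AddMonoidHom.ext fun y => ?_)
      refine DFinsupp.ext fun i => ?_
      exact congrArg (fun t => t.hom
        (DFunLike.coe (F := Π₀ i, (((X i).h b).obj K : Type)) y i)) (((X i).σ b).hom.naturality f))

open Classical in
/-- direct sums exist -/
def dsIsSum : IsSum X (dsGF X) where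
  inj i := mkHom (X i) (dsGF X)
    (fun b K => (DFinsupp.singleAddHom (fun i => (((X i).h b).obj (op K) : Type)) i))
    (by
      intro b K L g y
      exact (DFinsupp.mapRange_single (ι := ι) (f := fun i => (((X i).h b).map g.op).hom)
        (hf := fun i => map_zero _) (i := i) (b := y)).symm)
    (by
      intro b K y
      exact (DFinsupp.mapRange_single (ι := ι) (f := fun i => (((X i).σ b).hom.app (op K)).hom)
        (hf := fun i => map_zero _) (i := i) (b := y)).symm)
  pr i := mkHom (dsGF X) (X i)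
    (fun b K => (DFinsupp.evalAddMonoidHom (β := fun i => (((X i).h b).obj (op K) : Type)) i))
    (fun _ _ _ _ _ => rfl) (fun _ _ _ => rfl)
  inj_pr i := by
    refine ext_evm fun b K y => ?_
    exact DFinsupp.single_eq_same (ι := ι) (β := fun i => (((X i).h b).obj (op K) : Type))
  inj_pr_ne i j hij := by
    refine ext_evm fun b K y => ?_
    exact DFinsupp.single_eq_of_ne (ι := ι) (β := fun i => (((X i).h b).obj (op K) : Type))
      (Ne.symm hij)
  fin b K x := by
    refine ⟨DFinsupp.support (β := fun i => (((X i).h b).obj (op K) : Type)) x, ?_⟩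
    exact (DFinsupp.sum_single (β := fun i => (((X i).h b).obj (op K) : Type)) (f := x)).symm

theorem exists_sum : ∃ A : GF, Nonempty (IsSum X A) := ⟨dsGF X, ⟨dsIsSum X⟩⟩

end

/-! ## Complements -/

section
variable {B : GF} (e : B ⟶ B)

/-- the functors of the image of an endomorphism -/
def imFun (b : ℕ) : Testᵒᵖ ⥤ AddCommGrpCat.{0} where
  obj K := AddCommGrpCat.of ((GF.evm b K.unop e).range)
  map {K L} f := AddCommGrpCat.ofHom
    ((((B.h b).map f).hom.comp (AddSubgroup.subtype _)).codRestrict _ (by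
      rintro ⟨_, x, rfl⟩
      exact ⟨(B.h b).map f x, evm_map e f.unop x⟩))
  map_id K := by
    refine AddCommGrpCat.hom_ext (AddMonoidHom.ext fun y => Subtype.ext ?_)
    exact congrArg (fun t => t.hom y.1) ((B.h b).map_id K)
  map_comp f g := by
    refine AddCommGrpCat.hom_ext (AddMonoidHom.ext fun y => Subtype.ext ?_)
    exact congrArg (fun t => t.hom y.1) ((B.h b).map_comp f g)

/-- the image of an endomorphism -/
def imGF : GF where
  h b := imFun e b
  σ b := NatIso.ofComponents (fun K => AddEquiv.toAddCommGrpIso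
      (X := AddCommGrpCat.of ((GF.evm b K.unop e).range))
      (Y := AddCommGrpCat.of ((GF.evm (b + 1) (Test.cx.obj K.unop) e).range))
      (AddEquiv.ofBijective ((((B.σ b).hom.app K).hom.comp (AddSubgroup.subtype _)).codRestrict
        ((GF.evm (b + 1) (Test.cx.obj K.unop) e).range) (by
          rintro ⟨_, x, rfl⟩
          exact ⟨(B.σ b).hom.app K x, evm_σ e x⟩)) (by
      constructor
      · intro x y h
        exact Subtype.ext (σ_injective B b K.unop (congrArg Subtype.val h))
      · rintro ⟨_, x, rfl⟩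
        obtain ⟨z, hz⟩ : ∃ z : (B.h b).obj K, (B.σ b).hom.app K z = x := by
          refine ⟨(B.σ b).inv.app K x, ?_⟩
          have h2 := congrArg (fun t => NatTrans.app t K) (B.σ b).inv_hom_id
          exact congrArg (fun t => t.hom x) h2
        subst hz
        refine ⟨⟨GF.evm b K.unop e z, z, rfl⟩, Subtype.ext ?_⟩
        exact (evm_σ e z).symm)))
    (by
      intro K L f
      refine AddCommGrpCat.hom_ext (AddMonoidHom.ext fun y => Subtype.ext ?_)
      exact congrArg (fun t => t.hom y.1) ((B.σ b).hom.naturality f))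

/-- the inclusion of the image -/
def imInc : imGF e ⟶ B := mkHom (imGF e) B (fun b K => AddSubgroup.subtype (GF.evm b K e).range)
  (fun _ _ _ _ _ => rfl) (fun _ _ _ => rfl)

/-- the projection to the image -/
def imPr : B ⟶ imGF e := mkHom B (imGF e) (fun b K => (GF.evm b K e).rangeRestrict)
  (fun _ _ _ g y => Subtype.ext (evm_map e g y)) (fun _ _ y => Subtype.ext (evm_σ e y))

theorem imPr_imInc : imPr e ≫ imInc e = e := ext_evm fun _ _ _ => rfl

theorem imInc_imPr (he : e ≫ e = e) : imInc e ≫ imPr e = 𝟙 _ := by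
  refine ext_evm fun b K y => Subtype.ext ?_
  obtain ⟨_, x, rfl⟩ := y
  exact congrArg (fun t => GF.evm b K t x) he

end

/-- idempotents split -/
theorem exists_split {B : GF} (e : B ⟶ B) (he : e ≫ e = e) :
    ∃ (A : GF) (i : A ⟶ B) (r : B ⟶ A), i ≫ r = 𝟙 A ∧ r ≫ i = e :=
  ⟨imGF e, imInc e, imPr e, imInc_imPr e he, imPr_imInc e⟩

/-- retracts have complements -/
theorem exists_compl {A B : GF} (h : Ret A B) :
    ∃ C : GF, Nonempty (IsSum (fun t : Bool => cond t A C) B) := by
  obtain ⟨i, r, hir⟩ := h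
  have he : (𝟙 B - r ≫ i) ≫ (𝟙 B - r ≫ i) = 𝟙 B - r ≫ i := by
    rw [Preadditive.sub_comp, Preadditive.comp_sub, Preadditive.comp_sub, Category.id_comp,
      Category.id_comp, Category.comp_id, Category.assoc, ← Category.assoc i r i, hir,
      Category.id_comp, sub_self, sub_zero]
  obtain ⟨C, j, s, hjs, hsj⟩ := exists_split (𝟙 B - r ≫ i) he
  have h1 : i ≫ s = 0 := by
    have h2 : i ≫ s ≫ j = 0 := by
      rw [hsj, Preadditive.comp_sub, Category.comp_id, ← Category.assoc, hir, Category.id_comp,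
        sub_self]
    have h3 : i ≫ s = (i ≫ s ≫ j) ≫ s := by
      rw [Category.assoc, Category.assoc, hjs, Category.comp_id]
    rw [h3, h2, Limits.zero_comp]
  have h4 : j ≫ r = 0 := by
    have h2 : s ≫ j ≫ r = 0 := by
      rw [← Category.assoc, hsj, Preadditive.sub_comp, Category.id_comp, Category.assoc, hir,
        Category.comp_id, sub_self]
    have h3 : j ≫ r = j ≫ s ≫ j ≫ r := by
      rw [← Category.assoc j s, hjs, Category.id_comp]
    rw [h3, h2, Limits.comp_zero]
  refine ⟨C, ⟨{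
    inj := fun t => match t with | true => i | false => j
    pr := fun t => match t with | true => r | false => s
    inj_pr := by
      rintro (_ | _)
      · exact hjs
      · exact hir
    inj_pr_ne := by
      rintro (_ | _) (_ | _) h
      · exact absurd rfl h
      · exact h4
      · exact h1
      · exact absurd rfl h
    fin := fun b K x => ⟨Finset.univ, ?_⟩ }⟩⟩
  rw [Fintype.sum_bool]
  change x = GF.evm b K (r ≫ i) x + GF.evm b K (s ≫ j) x
  rw [hsj, ← GF.evm_add]
  have h5 : r ≫ i + (𝟙 B - r ≫ i) = 𝟙 B := by abel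
  rw [h5, GF.evm_id]

/-! ## The sparse trick -/

/-- the elements generated by a family of elements -/
inductive Gen {S : GF} (U : ∀ (b : ℕ) (K : Test), ((S.h b).obj (op K) : Type) → Prop) :
    ∀ (b : ℕ) (K : Test), ((S.h b).obj (op K) : Type) → Prop
  | base (b : ℕ) (K : Test) (x : ((S.h b).obj (op K) : Type)) (h : U b K x) : Gen U b K x
  | add (b : ℕ) (K : Test) (x y : ((S.h b).obj (op K) : Type)) (h : Gen U b K x)
      (h' : Gen U b K y) : Gen U b K (x + y)
  | map (b : ℕ) (K L : Test) (g : K ⟶ L) (x : ((S.h b).obj (op L) : Type)) (h : Gen U b L x) :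
      Gen U b K ((S.h b).map g.op x)
  | unsig (b : ℕ) (K : Test) (x : ((S.h b).obj (op K) : Type))
      (h : Gen U (b + 1) (Test.cx.obj K) ((S.σ b).hom.app (op K) x)) : Gen U b K x

/-- morphisms that vanish on generators -/
theorem Gen.vanish {S Z : GF} {U : ∀ (b : ℕ) (K : Test), ((S.h b).obj (op K) : Type) → Prop}
    (f : S ⟶ Z) (hf : ∀ b K x, U b K x → GF.evm b K f x = 0) {b : ℕ} {K : Test}
    {x : ((S.h b).obj (op K) : Type)} (h : Gen U b K x) : GF.evm b K f x = 0 := by
  induction h with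
  | base b K x h => exact hf b K x h
  | add b K x y h h' ih ih' => rw [map_add, ih, ih', add_zero]
  | map b K L g x h ih =>
    rw [evm_map, ih]
    exact map_zero ((Z.h b).map g.op).hom
  | unsig b K x h ih =>
    apply σ_injective Z b K
    rw [← evm_σ, ih]
    exact (map_zero ((Z.σ b).hom.app (op K)).hom).symm

theorem Gen.mono {S : GF} {U V : ∀ (b : ℕ) (K : Test), ((S.h b).obj (op K) : Type) → Prop}
    (hUV : ∀ b K x, U b K x → V b K x) {b : ℕ} {K : Test}
    {x : ((S.h b).obj (op K) : Type)} (h : Gen U b K x) : Gen V b K x := by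
  induction h with
  | base b K x h => exact Gen.base b K x (hUV b K x h)
  | add b K x y h h' ih ih' => exact Gen.add b K x y ih ih'
  | map b K L g x h ih => exact Gen.map b K L g x ih
  | unsig b K x h ih => exact Gen.unsig b K x ih

/-- the first `n + 1` elements of a sequence of elements -/
def Upto {S : GF} (u : ℕ → Σ (b : ℕ) (K : Test), ((S.h b).obj (op K) : Type)) (n : ℕ)
    (b : ℕ) (K : Test) (x : ((S.h b).obj (op K) : Type)) : Prop :=
  ∃ m ≤ n, u m = ⟨b, K, x⟩

/-- There is a sequence of elements such that every element is generated by finitely many of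
them. -/
def HasLevels (S : GF) : Prop :=
  ∃ u : ℕ → Σ (b : ℕ) (K : Test), ((S.h b).obj (op K) : Type),
    ∀ (b : ℕ) (K : Test) (x : ((S.h b).obj (op K) : Type)), ∃ n, Gen (Upto u n) b K x

/-- the image of an element -/
def push {S T : GF} (f : S ⟶ T) (s : Σ (b : ℕ) (K : Test), ((S.h b).obj (op K) : Type)) :
    Σ (b : ℕ) (K : Test), ((T.h b).obj (op K) : Type) := ⟨s.1, s.2.1, GF.evm _ _ f s.2.2⟩

theorem HasLevels.of_iso {S T : GF} (e : S ≅ T) (h : HasLevels S) : HasLevels T := by
  obtain ⟨u, hu⟩ := h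
  refine ⟨fun n => push e.hom (u n), fun b K x => ?_⟩
  obtain ⟨n, hn⟩ := hu b K (GF.evm b K e.inv x)
  refine ⟨n, ?_⟩
  have key : ∀ (b : ℕ) (K : Test) (y : ((S.h b).obj (op K) : Type)), Gen (Upto u n) b K y →
      Gen (Upto (fun n => push e.hom (u n)) n) b K (GF.evm b K e.hom y) := by
    intro b K y h
    induction h with
    | base b K x h =>
      obtain ⟨m, hm, h⟩ := h
      refine Gen.base _ _ _ ⟨m, hm, ?_⟩
      change push e.hom (u m) = _
      rw [h]
      rfl
    | add b K x y h h' ih ih' =>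
      rw [map_add]
      exact Gen.add _ _ _ _ ih ih'
    | map b K L g x h ih =>
      rw [evm_map]
      exact Gen.map _ _ _ _ _ ih
    | unsig b K x h ih =>
      refine Gen.unsig _ _ _ ?_
      rw [← evm_σ]
      exact ih
  have h1 := key b K _ hn
  rw [← GF.evm_comp, Iso.inv_hom_id, GF.evm_id] at h1
  exact h1

section
variable {S : GF} {Z : ℕ → GF} (i : ∀ k, Z k ⟶ S) (r : ∀ k, S ⟶ Z k)

/-- the projection away from the first images -/
def QQ (k : ℕ → ℕ) : ℕ → (S ⟶ S)
  | 0 => 𝟙 S
  | a + 1 => QQ k a ≫ (𝟙 S - r (k a) ≫ i (k a))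

/-- one step of the choice -/
theorem exists_next (u : ℕ → Σ (b : ℕ) (K : Test), ((S.h b).obj (op K) : Type)) (hf : LF r)
    (c : Set ℕ) (hc : ∀ N, ∃ k ≥ N, k ∈ c) (Q : S ⟶ S) (n N : ℕ) :
    ∃ k, N ≤ k ∧ k ∈ c ∧ ∀ m ≤ n, GF.evm (u m).1 (u m).2.1 (Q ≫ r k) (u m).2.2 = 0 := by
  have h1 : ∀ n, ∃ D, ∀ m ≤ n, ∀ k, D ≤ k →
      GF.evm (u m).1 (u m).2.1 (Q ≫ r k) (u m).2.2 = 0 := by
    intro n
    have h2 : ∀ m, ∃ D, ∀ k, D ≤ k → GF.evm (u m).1 (u m).2.1 (Q ≫ r k) (u m).2.2 = 0 := by
      intro m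
      obtain ⟨F, hF⟩ := hf (u m).1 (u m).2.1 (GF.evm (u m).1 (u m).2.1 Q (u m).2.2)
      refine ⟨F.sup id + 1, fun k hk => ?_⟩
      refine hF k fun h => ?_
      have := Finset.le_sup (f := id) h
      simp only [id] at this
      omega
    choose D hD using h2
    refine ⟨(Finset.range (n + 1)).sup D, fun m hm k hk => hD m k (le_trans ?_ hk)⟩
    exact Finset.le_sup (f := D) (Finset.mem_range.2 (by omega))
  obtain ⟨D, hD⟩ := h1 n
  obtain ⟨k, hk, hkc⟩ := hc (max N D)
  exact ⟨k, le_trans (le_max_left _ _) hk, hkc, fun m hm => hD m hm k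
    (le_trans (le_max_right _ _) hk)⟩

/-- the choice of the subsequence -/
theorem exists_seq (u : ℕ → Σ (b : ℕ) (K : Test), ((S.h b).obj (op K) : Type)) (hf : LF r)
    (c : ℕ → Set ℕ) (hc : ∀ a N, ∃ k ≥ N, k ∈ c a) :
    ∃ k : ℕ → ℕ, StrictMono k ∧ (∀ a, k a ∈ c a) ∧ ∀ a, ∀ m ≤ a,
      GF.evm (u m).1 (u m).2.1 (QQ i r k a ≫ r (k a)) (u m).2.2 = 0 := by
  -- states: the number of the step, the last value and the projection
  let St : Type _ := ℕ × ℕ × (S ⟶ S)
  have h1 : ∀ s : St, ∃ k, s.2.1 ≤ k ∧ k ∈ c s.1 ∧ ∀ m ≤ s.1,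
      GF.evm (u m).1 (u m).2.1 (s.2.2 ≫ r k) (u m).2.2 = 0 := fun s =>
    exists_next r u hf (c s.1) (hc s.1) s.2.2 s.1 s.2.1
  choose g hg1 hg2 hg3 using h1
  let nx : St → St := fun s => (s.1 + 1, g s + 1, s.2.2 ≫ (𝟙 S - r (g s) ≫ i (g s)))
  let st : ℕ → St := fun a => nx^[a] (0, 0, 𝟙 S)
  have hst : ∀ a, st (a + 1) = nx (st a) := fun a => Function.iterate_succ_apply' nx a _
  have hst1 : ∀ a, (st a).1 = a := by
    intro a
    induction a with
    | zero => rfl
    | succ a ih =>
      rw [hst]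
      change (st a).1 + 1 = a + 1
      rw [ih]
  have hstQ : ∀ a, (st a).2.2 = QQ i r (fun a => g (st a)) a := by
    intro a
    induction a with
    | zero => rfl
    | succ a ih =>
      rw [hst]
      change (st a).2.2 ≫ (𝟙 S - r (g (st a)) ≫ i (g (st a))) = _
      rw [ih]
      rfl
  refine ⟨fun a => g (st a), strictMono_nat_of_lt_succ fun a => ?_, fun a => ?_, fun a m hm => ?_⟩
  · have h2 := hg1 (st (a + 1))
    have h3 : (st (a + 1)).2.1 = g (st a) + 1 := by
      rw [hst]
    rw [h3] at h2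
    exact h2
  · have h2 := hg2 (st a)
    rw [hst1] at h2
    exact h2
  · have h2 := hg3 (st a) m (by rw [hst1]; exact hm)
    rw [hstQ] at h2
    exact h2

end

/-- (CORE) The sparse trick. -/
theorem core {S : GF} (hS : HasLevels S) {Z : ℕ → GF} (i : ∀ k, Z k ⟶ S) (r : ∀ k, S ⟶ Z k)
    (h1 : ∀ k, i k ≫ r k = 𝟙 _) (h0 : ∀ k l, k < l → i l ≫ r k = 0) (hf : LF r)
    (c : ℕ → Set ℕ) (hc : ∀ a N, ∃ k ≥ N, k ∈ c a) :
    ∃ k : ℕ → ℕ, StrictMono k ∧ (∀ a, k a ∈ c a) ∧
      ∀ A : GF, IsSum (fun a => Z (k a)) A → Ret A S := by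
  obtain ⟨u, hu⟩ := hS
  obtain ⟨k, hk, hkc, hku⟩ := exists_seq i r u hf c hc
  refine ⟨k, hk, hkc, fun A T => ?_⟩
  have hQ1 : ∀ b a, a ≤ b → i (k b) ≫ QQ i r k a = i (k b) := by
    intro b a
    induction a with
    | zero => exact fun _ => Category.comp_id _
    | succ a ih =>
      intro hab
      change i (k b) ≫ QQ i r k a ≫ (𝟙 S - r (k a) ≫ i (k a)) = i (k b)
      rw [← Category.assoc, ih (by omega), Preadditive.comp_sub, Category.comp_id,
        ← Category.assoc, h0 _ _ (hk (by omega : a < b)), Limits.zero_comp, sub_zero]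
  have hQ2 : ∀ b a, b < a → i (k b) ≫ QQ i r k a = 0 := by
    intro b a
    induction a with
    | zero => exact fun h => absurd h (Nat.not_lt_zero _)
    | succ a ih =>
      intro hab
      change i (k b) ≫ QQ i r k a ≫ (𝟙 S - r (k a) ≫ i (k a)) = 0
      rcases Nat.lt_succ_iff_lt_or_eq.1 hab with h | rfl
      · rw [← Category.assoc, ih h, Limits.zero_comp]
      · rw [← Category.assoc, hQ1 b b le_rfl, Preadditive.comp_sub, Category.comp_id,
          ← Category.assoc, h1, Category.id_comp, sub_self]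
  have hlf : LF (fun a => QQ i r k a ≫ r (k a)) := by
    intro b K y
    obtain ⟨n, hn⟩ := hu b K y
    refine ⟨Finset.range n, fun a ha => ?_⟩
    have ha' : n ≤ a := by
      by_contra h
      exact ha (Finset.mem_range.2 (by omega))
    refine Gen.vanish _ (fun b K x hx => ?_) hn
    obtain ⟨m, hm, hmx⟩ := hx
    have h2 := hku a m (by omega)
    rw [hmx] at h2
    exact h2
  obtain ⟨Φ, hΦ⟩ := T.desc fun a => i (k a)
  obtain ⟨Ψ, hΨ⟩ := sum_lift T (fun a => QQ i r k a ≫ r (k a)) hlf
  refine ⟨Φ, Ψ, sum_hom_ext T fun b => sum_hom_ext' T fun a => ?_⟩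
  have h2 : (T.inj b ≫ Φ ≫ Ψ) ≫ T.pr a = i (k b) ≫ QQ i r k a ≫ r (k a) := by
    rw [Category.assoc, Category.assoc, hΨ, ← Category.assoc, hΦ]
  rw [h2, Category.comp_id]
  rcases lt_trichotomy a b with h | rfl | h
  · rw [← Category.assoc, hQ1 b a h.le, h0 _ _ (hk h), T.inj_pr_ne b a h.ne']
  · rw [← Category.assoc, hQ1 a a le_rfl, h1, T.inj_pr]
  · rw [← Category.assoc, hQ2 b a h, Limits.zero_comp, T.inj_pr_ne b a h.ne]

end Pool.Agent.Helper84.Int
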