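import Pool.Agent.Helper84.Int.RS

/-! MP_ab4156_gt, PROJECT T, layer B. The telescope of `b_1` is a sum of shifts. -/

open CategoryTheory Topology Filter Set Opposite

noncomputable section

namespace Pool.Agent.Helper84.Int

open Pool.Agent.Helper1.Stab Pool.Agent.Helper84.Sn Pool.Agent.Helper33.Sn

/-! ## Lists -/

/-- the list `1, …, 1, M` -/
def LL (M : PL2) : ℕ → PL
  | 0 => ⟨M.1, M.2.1, fun i hi => lt_of_lt_of_le Nat.zero_lt_two (M.2.2 i hi)⟩
  | j + 1 => consOne (LL M j)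

theorem LL_zero_ne_consOne (M : PL2) (L : PL) : LL M 0 ≠ consOne L := by
  intro h
  have h1 : M.1 = 1 :: L.1 := congrArg Subtype.val h
  have h2 := M.2.2 1 (by rw [h1]; exact List.mem_cons_self)
  omega

theorem LL_inj {M M' : PL2} : ∀ {j j' : ℕ}, LL M j = LL M' j' → j = j' ∧ M = M'
  | 0, 0, h => ⟨rfl, Subtype.ext (congrArg (fun L : PL => L.1) h)⟩
  | 0, j' + 1, h => absurd h (LL_zero_ne_consOne M _)
  | j + 1, 0, h => absurd h.symm (LL_zero_ne_consOne M' _)
  | j + 1, j' + 1, h => by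
    have h1 := LL_inj (consOne_inj h)
    exact ⟨by rw [h1.1], h1.2⟩

theorem exists_LL : ∀ (L : List ℕ) (h : L.Pairwise (· ≤ ·)) (h' : ∀ i ∈ L, 0 < i),
    ∃ (j : ℕ) (M : PL2), (⟨L, h, h'⟩ : PL) = LL M j
  | [], _, _ => ⟨0, ⟨[], List.Pairwise.nil, fun _ hi => absurd hi List.not_mem_nil⟩, rfl⟩
  | i :: L, h, h' => by
    by_cases hi : i = 1
    · subst hi
      obtain ⟨j, M, hM⟩ := exists_LL L (List.pairwise_cons.1 h).2
        fun i hi => h' i (List.mem_cons_of_mem _ hi)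
      refine ⟨j + 1, M, ?_⟩
      change _ = consOne (LL M j)
      rw [← hM]
      rfl
    · refine ⟨0, ⟨i :: L, h, fun k hk => ?_⟩, rfl⟩
      have hi0 := h' i List.mem_cons_self
      rcases List.mem_cons.1 hk with rfl | hk
      · omega
      · have := (List.pairwise_cons.1 h).1 k hk
        omega

section
variable {R : Biv} (P : PRTheory R) (o : Orient R) {K L Z V : LC}

/-! ## Terms -/

theorem term_J {d : ℕ} (f : PMap K L.plus) (c : R.Hom L ((Cn d).prod Z))
    (x : P.Hom (Cn d) LC.point) :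
    P.comp (P.J f) (P.term c x) = P.term (R.comp (R.J f) c) x := by
  rw [← term_comp, P.inc_J]

/-- terms as a homomorphism -/
def termH (K Z : LC) {d : ℕ} (x : P.Hom (Cn d) LC.point) :
    R.Hom K ((Cn d).prod Z) →+ P.Hom K Z :=
  AddMonoidHom.mk' (fun c => P.term c x) fun c c' => PO7.term_add P c c' x

/-- the suspension of a coefficient -/
def sst (φ : V ≃ₜ Cn 1) (n d : ℕ) (K Z : LC) :
    R.Hom ((LC.ipow V n).prod K) ((Cn d).prod Z) ≃+
      R.Hom ((LC.ipow V (n + 1)).prod K) ((Cn (d + 1)).prod Z) :=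
  AddEquiv.ofBijective (AddMonoidHom.mk' (fun c =>
    R.comp (R.J (PMap.ofHomeo (K := (LC.ipow V (n + 1)).prod K)
      (L := V.prod ((LC.ipow V n).prod K)) (Homeomorph.prodAssoc V (LC.ipow V n) K)))
      (R.comp (R.J ((PMap.ofHomeo φ).tens ((LC.ipow V n).prod K)))
        (R.comp (R.ltens (Cn 1) c) (R.J (PMap.ofHomeo (kap d Z))))))
    (fun c c' => by rw [R.ltens_add, R.add_comp, R.comp_add, R.comp_add]))
    (by
      have h1 := (R.invP_homeo (K := (LC.ipow V (n + 1)).prod K)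
        (L := V.prod ((LC.ipow V n).prod K)) (Homeomorph.prodAssoc V (LC.ipow V n) K)).pre_bij R
          (M := (Cn (d + 1)).prod Z)
      have h2 : Function.Bijective (fun z : R.Hom ((Cn 1).prod ((LC.ipow V n).prod K))
          ((Cn (d + 1)).prod Z) => R.comp (R.J ((PMap.ofHomeo φ).tens ((LC.ipow V n).prod K))) z) := by
        rw [← R.tens_J]
        exact ((R.invP_homeo φ).tens ((LC.ipow V n).prod K)).pre_bij R (M := (Cn (d + 1)).prod Z)
      have h3 := (R.invP_homeo (kap d Z)).post_bij R (K := (Cn 1).prod ((LC.ipow V n).prod K))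
      have h4 := tc_bij_C1 (R := R) ((LC.ipow V n).prod K) ((Cn d).prod Z)
      exact h1.comp (h2.comp (h3.comp h4)))

theorem sst_apply (φ : V ≃ₜ Cn 1) (n d : ℕ) {K Z : LC}
    (c : R.Hom ((LC.ipow V n).prod K) ((Cn d).prod Z)) : sst φ n d K Z c =
    R.comp (R.J (PMap.ofHomeo (K := (LC.ipow V (n + 1)).prod K)
      (L := V.prod ((LC.ipow V n).prod K)) (Homeomorph.prodAssoc V (LC.ipow V n) K)))
      (R.comp (R.J ((PMap.ofHomeo φ).tens ((LC.ipow V n).prod K)))
        (R.comp (R.ltens (Cn 1) c) (R.J (PMap.ofHomeo (kap d Z))))) := rfl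

/-- the class of the telescope -/
abbrev xb (φ : V ≃ₜ Cn 1) : P.Hom V LC.point := P.comp (P.J (PMap.ofHomeo φ)) (P.b o 1)

/-- the transition map on terms -/
theorem nextx_term (φ : V ≃ₜ Cn 1) (n : ℕ) (L : PL)
    (c : R.Hom ((LC.ipow V n).prod K) ((Cn (deg L.1)).prod Z)) :
    P.toBiv.nextx (xb P o φ) (P.term c (P.bL o L.1)) =
      P.term (sst φ n (deg L.1) K Z c) (P.bL o (consOne L).1) := by
  have h1 := mb_term P o (K := (LC.ipow V n).prod K) (Z := Z) L.1 c
  have h2 : P.comp (P.tens (P.b o 1) ((LC.ipow V n).prod K))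
      (P.comp (P.J (PMap.ofHomeo (LC.lunit ((LC.ipow V n).prod K)))) (P.term c (P.bL o L.1))) =
      P.term (R.comp (R.ltens (Cn 1) c) (R.J (PMap.ofHomeo (kap (deg L.1) Z))))
        (P.bL o (1 :: L.1)) := h1
  unfold Biv.nextx Biv.mulx
  rw [P.tens_comp, P.tens_J, P.assoc, h2]
  exact (congrArg (P.comp (P.J (PMap.ofHomeo (K := (LC.ipow V (n + 1)).prod K)
    (L := V.prod ((LC.ipow V n).prod K)) (Homeomorph.prodAssoc V (LC.ipow V n) K))))
    (term_J P ((PMap.ofHomeo φ).tens ((LC.ipow V n).prod K)) _ _)).trans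
    (term_J P (PMap.ofHomeo (K := (LC.ipow V (n + 1)).prod K)
    (L := V.prod ((LC.ipow V n).prod K)) (Homeomorph.prodAssoc V (LC.ipow V n) K)) _ _)

/-- iterated suspension of a coefficient -/
def sE (φ : V ≃ₜ Cn 1) (n : ℕ) (M : PL2) (i : ℕ) (K Z : LC) : ∀ m : ℕ,
    R.Hom ((LC.ipow V n).prod K) ((Cn (deg (LL M i).1)).prod Z) ≃+
      R.Hom ((LC.ipow V (n + m)).prod K) ((Cn (deg (LL M (i + m)).1)).prod Z)
  | 0 => AddEquiv.refl _
  | m + 1 => (sE φ n M i K Z m).trans (sst φ (n + m) (deg (LL M (i + m)).1) K Z)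

/-- iterated transition maps on terms -/
theorem nexts_term (φ : V ≃ₜ Cn 1) (n : ℕ) (M : PL2) (i : ℕ) {b : ℕ} {K : Test}
    (c : R.Hom ((LC.ipow V n).prod K.obj) ((Cn (deg (LL M i).1)).prod (Zb b))) (m : ℕ) :
    nexts65 (P := P.toBiv) (xb P o φ) (P.term c (P.bL o (LL M i).1)) m =
      P.term (sE φ n M i K.obj (Zb b) m c) (P.bL o (LL M (i + m)).1) := by
  induction m with
  | zero => rfl
  | succ m ih =>
    change P.toBiv.nextx (xb P o φ) (nexts65 (P := P.toBiv) (xb P o φ)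
      (P.term c (P.bL o (LL M i).1)) m) = _
    rw [ih, nextx_term]
    rfl

/-- iterated transition maps as homomorphisms -/
def nextsH (x : P.Hom V LC.point) (b n : ℕ) (K : Test) : ∀ m : ℕ,
    P.Hom ((LC.ipow V n).prod K.obj) (Zb b) →+ P.Hom ((LC.ipow V (n + m)).prod K.obj) (Zb b)
  | 0 => AddMonoidHom.id _
  | m + 1 => (TL69.nextH P.toBiv x K.obj b (n + m)).comp (nextsH x b n K m)

theorem nextsH_apply (x : P.Hom V LC.point) {b n : ℕ} {K : Test}
    (y : P.Hom ((LC.ipow V n).prod K.obj) (Zb b)) (m : ℕ) :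
    nextsH P x b n K m y = nexts65 (P := P.toBiv) x y m := by
  induction m with
  | zero => rfl
  | succ m ih =>
    change P.toBiv.nextx x (nextsH P x b n K m y) = P.toBiv.nextx x (nexts65 (P := P.toBiv) x y m)
    rw [ih]

/-! ## The injections -/

variable (φ : V ≃ₜ Cn 1) (N : TeleGF P.toBiv (xb P o φ))

/-- the class map of a stage as a homomorphism -/
def clH (b n : ℕ) (K : Test) :
    P.Hom ((LC.ipow V n).prod K.obj) (Zb b) →+ ((N.H.h b).obj (op K) : Type) :=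
  AddMonoidHom.mk' (fun y => N.cls n y) (fun y z => N.cls_add y z)

/-- the summand of `(k, M)` -/
abbrev YY (R : Biv) (V : LC) (a : ℤ × PL2) : GF :=
  RS R (LC.ipow V (-a.1).toNat) (Cn (deg (LL a.2 a.1.toNat).1))

theorem exists_inj (a : ℤ × PL2) : ∃ F : YY R V a ⟶ N.H, ∀ (b : ℕ) (K : Test)
    (z : R.Hom ((LC.ipow V (-a.1).toNat).prod K.obj) ((Cn (deg (LL a.2 a.1.toNat).1)).prod (Zb b))),
    GF.evm b K F z = N.cls (-a.1).toNat (P.term z (P.bL o (LL a.2 a.1.toNat).1)) := by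
  obtain ⟨F, hF⟩ := GF.ofMaps (YY R V a) N.H
    (fun b K => (clH P o φ N b (-a.1).toNat K).comp
      (termH P ((LC.ipow V (-a.1).toNat).prod K.obj) (Zb b) (P.bL o (LL a.2 a.1.toNat).1)))
    (by
      intro b K L f y
      refine Eq.trans ?_ (N.map_cls f _).symm
      refine congrArg (N.cls (-a.1).toNat) ?_
      exact (term_J P (PMap.ltens (LC.ipow V (-a.1).toNat) f) _ _).symm)
    (by
      intro b K y
      refine Eq.trans ?_ (N.σ_cls _).symm
      refine congrArg (N.cls (b := b + 1) (K := Test.cx.obj K) (-a.1).toNat) ?_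
      have h1 := term_ltens P LC.C (Z := Zb b) (K := (LC.ipow V (-a.1).toNat).prod K.obj) y
        (P.bL o (LL a.2 a.1.toNat).1)
      refine Eq.symm ((congrArg (P.comp (P.J (PMap.ofHomeo
        (LC.frontC (LC.ipow V (-a.1).toNat) K.obj)))) h1).trans ?_)
      exact term_J P (PMap.ofHomeo (LC.frontC (LC.ipow V (-a.1).toNat) K.obj)) _ _)
  exact ⟨F, fun b K z => hF b K z⟩

theorem inj_stage (a : ℤ × PL2) (F : YY R V a ⟶ N.H) (hF : ∀ (b : ℕ) (K : Test)
      (z : R.Hom ((LC.ipow V (-a.1).toNat).prod K.obj)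
        ((Cn (deg (LL a.2 a.1.toNat).1)).prod (Zb b))),
      GF.evm b K F z = N.cls (-a.1).toNat (P.term z (P.bL o (LL a.2 a.1.toNat).1)))
    {b : ℕ} {K : Test} (z : R.Hom ((LC.ipow V (-a.1).toNat).prod K.obj)
      ((Cn (deg (LL a.2 a.1.toNat).1)).prod (Zb b))) (n i : ℕ) (hi : (i : ℤ) = a.1 + n) :
    ∃ c : R.Hom ((LC.ipow V n).prod K.obj) ((Cn (deg (LL a.2 i).1)).prod (Zb b)),
      GF.evm b K F z = N.cls n (P.term c (P.bL o (LL a.2 i).1)) ∧ (c = 0 → z = 0) := by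
  obtain ⟨m, rfl, rfl⟩ : ∃ m, n = (-a.1).toNat + m ∧ i = a.1.toNat + m :=
    ⟨n - (-a.1).toNat, by omega, by omega⟩
  refine ⟨sE φ (-a.1).toNat a.2 a.1.toNat K.obj (Zb b) m z, ?_, fun h => ?_⟩
  · refine (hF b K z).trans ?_
    rw [← nexts_term P o φ]
    exact (cls_nexts65 N (P.term z (P.bL o (LL a.2 a.1.toNat).1)) m).symm
  · exact (AddEquiv.map_eq_zero_iff _).1 h

theorem surj_stage (k : ℤ) (M : PL2) (F : YY R V (k, M) ⟶ N.H) (hF : ∀ (b : ℕ) (K : Test)
      (z : R.Hom ((LC.ipow V (-k).toNat).prod K.obj) ((Cn (deg (LL M k.toNat).1)).prod (Zb b))),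
      GF.evm b K F z = N.cls (-k).toNat (P.term z (P.bL o (LL M k.toNat).1)))
    {b : ℕ} {K : Test} (n i : ℕ) (hi : (i : ℤ) = k + n)
    (c : R.Hom ((LC.ipow V n).prod K.obj) ((Cn (deg (LL M i).1)).prod (Zb b))) :
    ∃ z : R.Hom ((LC.ipow V (-k).toNat).prod K.obj) ((Cn (deg (LL M k.toNat).1)).prod (Zb b)),
      GF.evm b K F z = N.cls n (P.term c (P.bL o (LL M i).1)) := by
  obtain ⟨m, rfl, rfl⟩ : ∃ m, n = (-k).toNat + m ∧ i = k.toNat + m :=
    ⟨n - (-k).toNat, by omega, by omega⟩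
  obtain ⟨z, rfl⟩ := (sE φ (-k).toNat M k.toNat K.obj (Zb b) m).surjective c
  refine ⟨z, ?_⟩
  refine (hF b K z).trans ?_
  rw [← nexts_term P o φ]
  exact (cls_nexts65 N (P.term z (P.bL o (LL M k.toNat).1)) m).symm

open Classical in
/-- the terms of different lists are independent -/
theorem term_indep {ι : Type} (F : Finset ι) (L : ι → PL) (hL : ∀ a ∈ F, ∀ a' ∈ F, L a = L a' → a = a')
    (c : ∀ a, R.Hom K ((Cn (deg (L a).1)).prod Z))
    (h : ∑ a ∈ F, P.term (c a) (P.bL o (L a).1) = 0) (a : ι) (ha : a ∈ F) : c a = 0 := by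
  have h1 := congrArg (co P o K Z (L a)) h
  rw [map_sum, map_zero, Finset.sum_eq_single_of_mem a ha, co_term, DFinsupp.single_eq_same] at h1
  · exact h1
  · intro a' ha' hne
    rw [co_term, DFinsupp.single_eq_of_ne]
    exact fun h2 => hne (hL a ha a' ha' h2).symm

/-- (B) The telescope of `b_1` is a sum of shifts of `R`. -/
theorem tele_decomp : Nonempty (IsSum (YY R V) N.H) := by
  classical
  have h0 := exists_inj P o φ N
  choose F hF using h0
  obtain ⟨A, ⟨T⟩⟩ := exists_sum (YY R V)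
  obtain ⟨Φ, hΦ⟩ := T.desc F
  have hinj : ∀ (b : ℕ) (K : Test), Function.Injective (GF.evm b K Φ) := by
    intro b K
    refine (injective_iff_map_eq_zero (GF.evm b K Φ)).2 fun x hx => ?_
    obtain ⟨G, hG⟩ := T.fin' x
    have h1 : GF.evm b K Φ x = ∑ a ∈ G, GF.evm b K (F a) (GF.evm b K (T.pr a) x) := by
      conv_lhs => rw [hG]
      rw [map_sum]
      refine Finset.sum_congr rfl fun a _ => ?_
      rw [← GF.evm_comp, Category.assoc, hΦ, GF.evm_comp]
    obtain ⟨n, hn⟩ : ∃ n : ℕ, ∀ a ∈ G, (-a.1).toNat ≤ n :=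
      ⟨G.sup fun a => (-a.1).toNat, fun a ha => Finset.le_sup (f := fun a : ℤ × PL2 => (-a.1).toNat) ha⟩
    have h2 : ∀ a : G, ∃ c : R.Hom ((LC.ipow V n).prod K.obj)
        ((Cn (deg (LL a.1.2 (a.1.1 + n).toNat).1)).prod (Zb b)),
        GF.evm b K (F a.1) (GF.evm b K (T.pr a.1) x) =
          N.cls n (P.term c (P.bL o (LL a.1.2 (a.1.1 + n).toNat).1)) ∧
        (c = 0 → GF.evm b K (T.pr a.1) x = 0) := fun a =>
      inj_stage P o φ N a.1 (F a.1) (fun b K z => hF a.1 b K z) (GF.evm b K (T.pr a.1) x) n _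
        (by have := hn a.1 a.2; omega)
    choose c hc1 hc2 using h2
    have h3 : N.cls n (∑ a : G, P.term (c a) (P.bL o (LL a.1.2 (a.1.1 + n).toNat).1)) = 0 := by
      have h4 := map_sum (clH P o φ N b n K)
        (fun a : G => P.term (c a) (P.bL o (LL a.1.2 (a.1.1 + n).toNat).1)) Finset.univ
      refine h4.trans ?_
      rw [← hx, h1, ← Finset.sum_coe_sort G]
      exact Finset.sum_congr rfl fun a _ => (hc1 a).symm
    obtain ⟨m, hm⟩ := N.eq_zero _ h3
    have h5 : ∑ a : G, P.term (sE φ n a.1.2 (a.1.1 + n).toNat K.obj (Zb b) m (c a))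
        (P.bL o (LL a.1.2 ((a.1.1 + n).toNat + m)).1) = 0 := by
      have h6 : nexts65 (P := P.toBiv) (xb P o φ)
        (∑ a : G, P.term (c a) (P.bL o (LL a.1.2 (a.1.1 + n).toNat).1)) m = 0 := hm
      rw [← nextsH_apply, map_sum] at h6
      rw [← h6]
      refine Finset.sum_congr rfl fun a _ => ?_
      rw [nextsH_apply, nexts_term]
    have h7 : ∀ a : G, sE φ n a.1.2 (a.1.1 + n).toNat K.obj (Zb b) m (c a) = 0 := fun a =>
      term_indep P o Finset.univ (fun a : G => LL a.1.2 ((a.1.1 + n).toNat + m)) (by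
        intro a _ a' _ h
        obtain ⟨h8, h9⟩ := LL_inj h
        refine Subtype.ext (Prod.ext ?_ h9)
        have := hn a.1 a.2
        have := hn a'.1 a'.2
        omega) _ h5 a (Finset.mem_univ a)
    have h8 : ∀ a ∈ G, GF.evm b K (T.pr a) x = 0 := fun a ha =>
      hc2 ⟨a, ha⟩ ((AddEquiv.map_eq_zero_iff _).1 (h7 ⟨a, ha⟩))
    rw [hG]
    refine Finset.sum_eq_zero fun a ha => ?_
    rw [GF.evm_comp, h8 a ha, map_zero]
  have hsurj : ∀ (b : ℕ) (K : Test), Function.Surjective (GF.evm b K Φ) := by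
    intro b K t
    obtain ⟨n, -, y, rfl⟩ := N.surj t 0
    obtain ⟨c, hc⟩ := PO7.psi_surj P o ((LC.ipow V n).prod K.obj) (Zb b) y
    have h1 : y = ∑ L ∈ c.support, P.term (c L) (P.bL o L.1) := by
      rw [← hc, PO7.psi_apply]
      rfl
    have h2 : ∀ L : PL, ∃ x : (A.h b).obj (op K), GF.evm b K Φ x =
        N.cls n (P.term (c L) (P.bL o L.1)) := by
      intro L
      obtain ⟨i, M, hM⟩ := exists_LL L.1 L.2.1 L.2.2
      have hM' : L = LL M i := hM
      subst hM'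
      obtain ⟨z, hz⟩ := surj_stage P o φ N ((i : ℤ) - n) M (F ((i : ℤ) - n, M))
        (fun b K z => hF ((i : ℤ) - n, M) b K z) n i (by omega) (c (LL M i))
      refine ⟨GF.evm b K (T.inj ((i : ℤ) - n, M)) z, ?_⟩
      exact (congrArg (fun t => GF.evm b K t z) (hΦ ((i : ℤ) - n, M))).trans hz
    choose x hx using h2
    refine ⟨∑ L ∈ c.support, x L, ?_⟩
    rw [map_sum]
    have h3 := map_sum (clH P o φ N b n K) (fun L => P.term (c L) (P.bL o L.1)) c.support
    rw [← h1] at h3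
    refine Eq.trans ?_ h3.symm
    exact Finset.sum_congr rfl fun L _ => hx L
  have : IsIso Φ := isIso_of_bij Φ fun b K => ⟨hinj b K, hsurj b K⟩
  exact ⟨T.congrObj (asIso Φ)⟩

/-- (B) for theories with an invertible class of weight 2 -/
theorem tele_par (φ : V ≃ₜ Cn 1) (p : Per R (Cn 2)) (a : ℤ × PL2) :
    Nonempty (YY R V a ≅ par R.gf ((-a.1).toNat + deg (LL a.2 a.1.toNat).1).bodd) := by
  obtain ⟨e⟩ := rs_homeo (R := R) (ipowCn φ (-a.1).toNat)
    (Homeomorph.refl (Cn (deg (LL a.2 a.1.toNat).1)))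
  obtain ⟨e'⟩ := rs_par p (-a.1).toNat (deg (LL a.2 a.1.toNat).1)
  exact ⟨e ≪≫ e'⟩

end

end Pool.Agent.Helper84.Int
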