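import Pool.Agent.Helper84.Int.Alg
import Pool.Agent.Helper84.Sn.TeleKit
import Pool.Agent.Helper1.Stab.T.Op
import Pool.Agent.Helper5.Stab.U5
import Pool.Agent.Helper87.Stab.UnitMap

/-! MP_ab4156_gt, PROJECT T, layer C. The unit maps of localisations. -/

open CategoryTheory Topology Filter Set Opposite

noncomputable section

namespace Pool.Agent.Helper84.Int

open Pool.Agent.Helper1.Stab Pool.Agent.Helper84.Sn

/-- (U2) Localisations are functorial for homomorphisms. Well defined by `N.eq_zero` (the map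
commutes with `stabR`, `reR`, since these are built from `comp`, `tens`, `J`), `GF.ofMaps`. -/
theorem exists_locMap {R R' : Biv} (j : BivHom R R') {D : Datum} (N : LocGF R D)
    (N' : LocGF R' D) : ∃ F : N.H ⟶ N'.H, ∀ (b : ℕ) (ι : Type) [Fintype ι] (K : Test)
      (y : R.Hom ((D.A ι).prod K.obj) ((D.B ι).prod (Zb b))),
      GF.evm b K F (N.cls y) = N'.cls (j.F y) :=
  Pool.Agent.Helper87.Stab.UM.exists_locMap j N N'

/-! ## The unit -/

/-- (U1) The unit `T → R[D⁻¹]` of the universal theory `T` of the datum `D`: the class of a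
representative `f` (a map) goes to the class of `R.J f`. Well defined by `T.cls_eq` (homotopic after
stabilisation; `R.J` sends `Rep.stab` to `stabR`, `Rep.re` to `reR`, cf. `CommX.stabR_cls`),
natural and compatible with `σ` (`T.susp`, `CommX`), additive because of `CommX.exists_hom`
(a natural family compatible with `σ` is additive; `LG.red`, `LG.dbl_zero`; for `T.gf`
reducedness is `J_zero`). -/
theorem exists_unit {D : Datum} (T : LocTheory D) {R : Biv} (N : LocGF R D) :
    ∃ u : T.toBiv.gf ⟶ N.H, ∀ (b : ℕ) (ι : Type) [Fintype ι] (K : Test)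
      (f : D.Rep ι K.obj (Zb b)), GF.evm b K u (T.cls f) = N.cls (R.J f) :=
  Pool.Agent.Helper87.Stab.UM.exists_unit T N

/-- the unit commutes with the maps of `exists_locMap` -/
theorem unit_locMap {D : Datum} (T : LocTheory D) {R R' : Biv} (j : BivHom R R') (N : LocGF R D)
    (N' : LocGF R' D) (u : T.toBiv.gf ⟶ N.H) (hu : ∀ (b : ℕ) (ι : Type) [Fintype ι] (K : Test)
      (f : D.Rep ι K.obj (Zb b)), GF.evm b K u (T.cls f) = N.cls (R.J f))
    (F : N.H ⟶ N'.H) (hF : ∀ (b : ℕ) (ι : Type) [Fintype ι] (K : Test)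
      (y : R.Hom ((D.A ι).prod K.obj) ((D.B ι).prod (Zb b))),
      GF.evm b K F (N.cls y) = N'.cls (j.F y)) (b : ℕ) (ι : Type) [Fintype ι] (K : Test)
    (f : D.Rep ι K.obj (Zb b)) : GF.evm b K (u ≫ F) (T.cls f) = N'.cls (R'.J f) := by
  refine (congrArg (GF.evm b K F) (hu b ι K f)).trans ((hF b ι K _).trans ?_)
  rw [j.J]

/-! ## The stage of the empty set -/

/-- `A ∅ × K = K` -/
def zA (D : Datum) (K : LC) : (D.A (Fin 0)).prod K ≃ₜ K where
  toFun x := x.2
  invFun k := (fun i => i.1.elim0, k)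
  left_inv _ := Prod.ext (funext fun i => i.1.elim0) rfl
  right_inv _ := rfl
  continuous_toFun := continuous_snd
  continuous_invFun := Continuous.prodMk (continuous_pi fun i => i.1.elim0) continuous_id

/-- `Z = B ∅ × Z` -/
def zB (D : Datum) (Z : LC) : Z ≃ₜ (D.B (Fin 0)).prod Z where
  toFun z := ((fun i => i.1.elim0, GK.base _), z)
  invFun x := x.2
  left_inv _ := rfl
  right_inv x := by
    refine Prod.ext (Prod.ext (funext fun i => i.1.elim0) (Subtype.ext ?_)) rfl
    ext i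
    exact i.1.1.elim0
  continuous_toFun := by fun_prop
  continuous_invFun := continuous_snd

/-- an element as an element of the stage of the empty set -/
def unit0 (D : Datum) {R : Biv} {K Z : LC} (z : R.Hom K Z) :
    R.Hom ((D.A (Fin 0)).prod K) ((D.B (Fin 0)).prod Z) :=
  R.comp (R.J (PMap.ofHomeo (zA D K))) (R.comp z (R.J (PMap.ofHomeo (zB D Z))))

/-- at the stage of the empty set `shat` is the point -/
theorem shat_zero (D : Datum) (v : D.A (Fin 0)) : ∃ c : D.B (Fin 0),
    D.shat (Fin 0) v = (c : OnePoint (D.B (Fin 0))) := by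
  have h : ∀ i : Fin 0, ∃ y : (D.u → ℂ) × GK D.a, D.s (fun j => v (i, some j)) =
      ((y : (D.u → ℂ) × GK D.a) : OnePoint ((D.u → ℂ) × GK D.a)) := fun i => i.elim0
  change ∃ c : D.B (Fin 0), D.shatGFun (Fin 0) (v, GK.base _) = _
  unfold Datum.shatGFun
  rw [dif_pos h]
  exact ⟨_, rfl⟩

theorem eq_zB (D : Datum) (c c' : D.B (Fin 0)) : c = c' := by
  refine Prod.ext (funext fun i => i.1.elim0) (Subtype.ext ?_)
  ext i
  exact i.1.1.elim0

theorem sw_ofMap_zero {D D' : Datum} {ι : Type} [Fintype ι] {K Z : LC} (f : D'.Rep ι K Z) :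
    CommX.sw (A := D.A (Fin 0)) (A' := D'.A ι) (B := D.B (Fin 0)) (B' := D'.B ι)
      (Datum.Rep.ofMap (D := D) (Fin 0) (K := (D'.A ι).prod K) (L := (D'.B ι).prod Z) f) =
    Datum.Rep.pre (D := D') (ι := ι) (PMap.ofHomeo (zA D K))
      (Datum.Rep.post (D := D') (ι := ι) f (PMap.ofHomeo (zB D Z))) := by
  ext ⟨v, w, k⟩
  rw [CommX.sw_val, CommX.pre_ofHomeo_val]
  have e1 : (zA D K) (w, k) = k := rfl
  rw [e1, Datum.post_val, Datum.ofMap_val]
  obtain ⟨c, hc⟩ := shat_zero D w
  rw [hc]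
  have e2 : ∀ z : Z, PMap.ofHomeo (zB D Z) z = (((zB D Z z) : (D.B (Fin 0)).prod Z) :
      OnePoint ((D.B (Fin 0)).prod Z)) := fun _ => rfl
  rcases f (v, k) with _ | p
  · rfl
  · have e3 : zB D Z p.2 = (c, p.2) := Prod.ext (eq_zB D _ _) rfl
    have e4 : PMap.ofHomeo (zB D Z) p.2 = (((c, p.2) : (D.B (Fin 0)).prod Z) :
        OnePoint ((D.B (Fin 0)).prod Z)) := (e2 p.2).trans (congrArg _ e3)
    refine Eq.symm ?_
    refine (congrArg (fun t : OnePoint ((D.B (Fin 0)).prod Z) => bnd t fun z =>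
      (((p.1, z) : D'.B ι × ((D.B (Fin 0)).prod Z)) : OnePoint (D'.B ι × ((D.B (Fin 0)).prod Z))))
      e4).trans ?_
    rfl

/-- `CommX.comm` with the formula -/
theorem comm_theta {D D' : Datum} (T : LocTheory D) (T' : LocTheory D') (N : CommX.LG T.toBiv D')
    (N' : CommX.LG T'.toBiv D) : ∃ c : N.H ≅ N'.H, ∀ (b : ℕ) (K : Test)
      (x : (N.H.h b).obj (op K)), GF.evm b K c.hom x = CommX.theta T' N N' b K x := by
  obtain ⟨F, hF⟩ := CommX.exists_hom N.red N'.red N'.dbl_zero (CommX.theta T' N N')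
    (CommX.theta_nat T' N N') (CommX.theta_sg T' N N')
  obtain ⟨G, hG⟩ := CommX.exists_hom N'.red N.red N.dbl_zero (CommX.theta T N' N)
    (CommX.theta_nat T N' N) (CommX.theta_sg T N' N)
  refine ⟨⟨F, G, ?_, ?_⟩, fun b K x => hF b K x⟩
  · refine GF.hom_ext fun b => ?_
    ext K x
    change (G.app b).app K ((F.app b).app K x) = x
    rw [hF b K.unop, hG b K.unop]
    exact CommX.theta_theta T' N N' b K.unop x
  · refine GF.hom_ext fun b => ?_
    ext K x
    change (F.app b).app K ((G.app b).app K x) = x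
    rw [hG b K.unop, hF b K.unop]
    exact CommX.theta_theta T N' N b K.unop x

/-- (U3) Under the exchange `T[D'⁻¹] = M[D⁻¹]` the unit of `M` goes to the stage of the empty set.
The morphism is `CommX.theta` (`CommX.comm`), `theta_val`: for `z = M.cls f` the element
`N.cls (T.J f)` is `val N F` with `F = Rep.ofMap (Fin 0) f` (`T.J_eq`), and `M.cls (sw F)` is
`unit0 D (M.cls f)` by `CommX.J_comp_cls`, `CommX.cls_comp_J`. -/
theorem exists_comm_unit {D D' : Datum} (T : LocTheory D) (M : LocTheory D')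
    (N : LocGF T.toBiv D') (N' : LocGF M.toBiv D) :
    ∃ c : N.H ≅ N'.H, ∀ (b : ℕ) (ι : Type) [Fintype ι] (K : Test)
      (f : D'.Rep ι K.obj (Zb b)),
      GF.evm b K c.hom (N.cls (T.J f)) = N'.cls (unit0 D (M.cls f)) := by
  let L : CommX.LG T.toBiv D' := ⟨N.H, N.cls, N.cls_add, N.cls_stab, N.cls_re, (by
    intro b K t
    obtain ⟨n, -, y, hy⟩ := N.surj t 0
    exact ⟨n, y, hy⟩), N.eq_zero, N.map_cls, N.σ_cls⟩
  let L' : CommX.LG M.toBiv D := ⟨N'.H, N'.cls, N'.cls_add, N'.cls_stab, N'.cls_re, (by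
    intro b K t
    obtain ⟨n, -, y, hy⟩ := N'.surj t 0
    exact ⟨n, y, hy⟩), N'.eq_zero, N'.map_cls, N'.σ_cls⟩
  obtain ⟨c, hc⟩ := comm_theta T M L L'
  refine ⟨c, fun b ι _ K f => ?_⟩
  have h1 : N.cls (T.J f) = CommX.val (D := D) (D' := D') L (ι := Fin 0) (ι' := ι) (K := K)
      (b := b) (Datum.Rep.ofMap (D := D) (Fin 0) (K := (D'.A ι).prod K.obj)
        (L := (D'.B ι).prod (Zb b)) f) := by
    change _ = N.cls _
    rw [T.J_eq (Fin 0) f]
  rw [h1]
  refine (hc b K _).trans ?_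
  rw [CommX.theta_val]
  have h2 : unit0 D (M.cls f) = M.cls (ι := ι) (CommX.sw (A := D.A (Fin 0)) (A' := D'.A ι)
      (B := D.B (Fin 0)) (B' := D'.B ι)
      (Datum.Rep.ofMap (D := D) (Fin 0) (K := (D'.A ι).prod K.obj) (L := (D'.B ι).prod (Zb b)) f)) := by
    rw [sw_ofMap_zero]
    unfold unit0
    rw [CommX.cls_comp_J, CommX.J_comp_cls]
  rw [h2]
  rfl

/-! ### Auxiliary results for (U4) -/

section U4

open Pool.Agent.Helper63.Stab Pool.Agent.Helper67.Stab

theorem gk_sub {κ : Type} [Fintype κ] [IsEmpty κ] (a b : GK κ) : a = b :=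
  Subtype.ext (by ext i; exact isEmptyElim i.1)

/-- `pt = G ∅` -/
def ptG (κ : Type) [Fintype κ] [IsEmpty κ] : LC.point ≃ₜ LC.G κ where
  toFun _ := (GK.base κ : GK κ)
  invFun _ := PUnit.unit
  left_inv _ := rfl
  right_inv _ := gk_sub _ _
  continuous_toFun := continuous_const
  continuous_invFun := continuous_const

theorem g_empty (P : GBiv) (κ : Type) [Fintype κ] [IsEmpty κ] :
    P.g κ = jh P.toBiv (ptG κ).symm := by
  have h1 : PMap.ofPoint (K := LC.G κ) (GK.base κ) = PMap.ofHomeo (ptG κ) := by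
    ext v
    rfl
  have h2 := P.g_base κ
  rw [h1, jh_def] at h2
  have h3 := congrArg (fun t => P.comp (jh P.toBiv (ptG κ).symm) t) h2
  simp only at h3
  rw [jh_symm_comp, P.comp_id] at h3
  exact h3

theorem ss_sub (D : Datum) (p q : SS D (Fin 0)) : p = q :=
  Prod.ext (funext fun i => i.1.elim0) rfl

/-- `pt = S ∅` -/
def ptS (D : Datum) : LC.point ≃ₜ SS D (Fin 0) where
  toFun _ := (fun i => i.1.elim0, PUnit.unit)
  invFun _ := PUnit.unit
  left_inv _ := rfl
  right_inv _ := ss_sub D _ _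
  continuous_toFun := continuous_const
  continuous_invFun := continuous_const

theorem rel_unit0' {R : Biv} (P : PRTheory R) (D : Datum) {K Z : LC} (z : R.Hom K Z) :
    Rel (U := LC.point) (hat P (unit0 D z)) (P.comp (jh P.toBiv (LC.lunit K)) (P.inc z)) := by
  obtain ⟨a, ha⟩ := exists_isPerm (X := D.A (Fin 0)) (Y := (SS D (Fin 0)).prod LC.point) (by
    rw [dm_prod, dm_prod, dm_point, dm_pi, dm_pi, Fintype.card_eq_zero, Fintype.card_eq_zero])
  refine ⟨a, ha, ?_⟩
  have e0 : P.tens (gh P.toGBiv D (Fin 0)) Z = jh P.toBiv (K := (D.B (Fin 0)).prod Z)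
      (L := (SS D (Fin 0)).prod Z)
      (((Homeomorph.refl (LC.cpow (Fin 0 × Option D.u))).prodCongr
      (ptG (Fin 0 × Option D.a)).symm).prodCongr (Homeomorph.refl Z)) := by
    rw [gh, g_empty, ltens_jh, tens_jh]
  have e1 : hat P (unit0 D z) = pl P.toBiv (P.inc z) (W := LC.point)
      ((zA D K).trans (Homeomorph.prodPUnit K).symm)
      (((zB D Z).trans (((Homeomorph.refl (LC.cpow (Fin 0 × Option D.u))).prodCongr
        (ptG (Fin 0 × Option D.a)).symm).prodCongr (Homeomorph.refl Z) :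
          (D.B (Fin 0)).prod Z ≃ₜ (SS D (Fin 0)).prod Z)).symm.trans
            (Homeomorph.prodPUnit Z).symm) := by
    rw [hat, unit0, P.inc_comp, P.inc_comp, e0, jh_def, jh_def, inc_jh, inc_jh, P.assoc, P.assoc,
      ← jh_trans]
    conv_lhs => rw [eq_pl (P.inc z)]
    rw [pl_jh, jh_pl]
  have e3 : P.ltens (SS D (Fin 0)) (P.comp (jh P.toBiv (LC.lunit K)) (P.inc z)) =
      P.comp (jh P.toBiv (K := (SS D (Fin 0)).prod (LC.point.prod K))
      (L := (SS D (Fin 0)).prod K) ((Homeomorph.refl (SS D (Fin 0))).prodCongr (LC.lunit K)))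
      (P.ltens (SS D (Fin 0)) (P.inc z)) := by
    rw [← ltens_jh, ← Pool.Agent.Helper63.Stab.ltens_comp]
  rw [e1, e3, ltens_eq_pl, jh_pl, jh_pl]
  refine (pl_congr (R := P.toBiv) (P.inc z) (ptS D) _ _ _ _ (fun m => ?_) (fun n => ?_)).symm
  · exact Prod.ext rfl (ss_sub D _ _)
  · exact Prod.ext rfl (ss_sub D _ _)

theorem rel_unit0 {R : Biv} (P : PRTheory R) (D : Datum) {V K Z : LC} [Crd V] (z : R.Hom K Z) :
    Rel (U := LC.ipow V 0) (hat P (unit0 D z)) (tcI P V z) := rel_unit0' P D z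

end U4

/-- (U4) `locGF_tele` sends the stage of the empty set to the stage `0` of the telescope. The
isomorphism is `NC67.fGF` (see the proof of `locGF_tele`); `NC67.fHom_eq` and
`Rel (hat P (unit0 D z)) (tcI P V z)`, because `G(∅)` is a point and `P.g ∅` its class
(`g_base`), and `W' = SS D ∅` is a point. -/
theorem exists_tele_unit {R : Biv} (P : PRTheory R) {e : ℕ} (he : 0 < e) {κ : Type} [Fintype κ]
    (f : GenLoop (Fin (2 * e)) (GK κ) (GK.base κ)) (x : P.Hom (LC.cpow (Fin e)) LC.point)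
    (hx : P.comp (P.J (collSph e)) x =
      P.comp (P.J (PMap.ofC (K := LC.sph e) (L := LC.G κ) (loopBar f))) (P.g κ) -
        P.J (PMap.toPoint (LC.sph e)))
    (N : LocGF R (loopDatum f)) (M : TeleGF P.toBiv x) :
    ∃ c : N.H ≅ M.H, ∀ (b : ℕ) (K : Test) (z : R.Hom K.obj (Zb b)),
      GF.evm b K c.hom (N.cls (unit0 (loopDatum f) z)) =
        M.cls 0 (K := K) (tcI P (LC.cpow (Fin e)) z) := by
  obtain ⟨ρ, hρ, hl⟩ := Helper67.Stab.exists_loop_class P he f x hx
  have G : NC67.Good (P := P) (loopDatum f) x := by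
    refine ⟨?_, ?_, hl⟩
    · rw [Helper63.Stab.dm_pi, Fintype.card_fin]
      exact he
    · intro ι _
      rw [Helper63.Stab.dm_pi, Helper63.Stab.dm_pi, Fintype.card_prod, Fintype.card_prod,
        Fintype.card_option, Fintype.card_option, Fintype.card_fin]
      have h1 : Fintype.card (loopDatum f).w = e + 1 := Fintype.card_fin (e + 1)
      have h2 : Fintype.card (loopDatum f).u = 1 := Fintype.card_fin 1
      rw [h1, h2]
      ring
  have hbij : ∀ b K, Function.Bijective (((NC67.fGF N M G).app b).app K) := by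
    intro b K
    constructor
    · refine (injective_iff_map_eq_zero (NC67.fHom N M G b K.unop)).2 fun t ht => ?_
      have h := NC67.fHom_spec N M G b K.unop t
      rw [ht] at h
      exact NC67.cor_zero_right N M G h
    · intro s
      obtain ⟨t, ht⟩ := NC67.cor_surj N M G ρ hρ s
      exact ⟨t, NC67.fHom_eq N M G ht⟩
  have := GF.isIso_of_bijective (NC67.fGF N M G) hbij
  refine ⟨asIso (NC67.fGF N M G), fun b K z => ?_⟩
  exact NC67.fHom_eq N M G ⟨Fin 0, inferInstance, unit0 (loopDatum f) z, 0,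
    tcI P (LC.cpow (Fin e)) z, rfl, rfl, rel_unit0 P (loopDatum f) z⟩

/-- (U5) The theory `R` is a retract of the telescope of `tele_sum` through the stage `0`: the
retraction is the projection `pr (0, false, ∅)` in the proof of `tele_sum`
(`Helper84/Sn/TeleKit.lean`): `cf (0, false, ∅) (th P p 0 (tcI z)) = z` by `th_zero_inc`, the second
property of `cf` and `eA (0, false, ∅) = 1`. -/
theorem tele_sum_unit {R : Biv} (o : Orient R) (P : PRTheory R) {V : LC}
    (φ : V ≃ₜ (Cn 1).prod (Cn 1)) (x : P.Hom V LC.point) (q : ∀ i : ℕ, R.Hom V (Cn i))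
    (hx : x = (∑ i ∈ Finset.range 4, P.comp (P.inc (q i)) (P.b o i)) -
        P.comp (P.J (PMap.ofHomeo φ)) (P.mulPt (P.b o 1) (P.b o 1)))
    (β : R.Hom LC.C LC.point) (hβ : R.Iv β) (N : TeleGF P.toBiv x) :
    ∃ r : N.H ⟶ R.gf, ∀ (b : ℕ) (K : Test) (z : R.Hom K.obj (Zb b)),
      GF.evm b K r (N.cls 0 (K := K) (tcI P V z)) = z :=
  Pool.Agent.Helper5.Stab.tele_sum_unit o P φ x q hx β hβ N

end Pool.Agent.Helper84.Int
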