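import Pool.Agent.Helper84.Int.Dec
import Pool.Agent.Helper84.Int.UnitM
import Pool.Agent.Helper1.Stab.T.FinT

/-! MP_ab4156_gt, PROJECT T. `MUP` is a retract of a sum of shifts of `S'`. -/

open CategoryTheory Topology Filter Set Opposite

noncomputable section

namespace Pool.Agent.Helper84.Int

open Pool.Agent.Helper1.Stab Pool.Agent.Helper84.Sn

/-- `(pt × ℂ) × ℂ = ℂ × ℂ` -/
def cn2 : Cn 2 ≃ₜ LC.C.prod LC.C :=
  (LC.lunit LC.C).prodCongr (Homeomorph.refl LC.C)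

/-- the class of weight two in `S'` -/
def per2 {k : ℕ} {g : GenLoop (Fin 4) (Gr {1} k) (Gr.pt {1} k)} (A : TE g) :
    Per A.S'.biv (Cn 2) :=
  Per.homeo cn2 ⟨A.a2, A.a2', A.a2_a2', A.a2'_a2⟩

/-- (FU1) the telescope of `b_1` over `S'` -/
theorem exists_tele_S' {k : ℕ} {g : GenLoop (Fin 4) (Gr {1} k) (Gr.pt {1} k)} (A : TE g)
    (PS : PRTheory A.S'.biv) (oS : Orient A.S'.biv)
    (yS : PS.Hom (LC.cpow (Fin 1)) LC.point)
    (hyS : IsHur PS.toGBiv (e := 1) (loopGK bott) yS) (NS : TeleGF PS.toBiv yS) :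
    ∃ (ι : Type) (_ : Countable ι) (p : ι → Bool) (Y : ι → GF) (_ : IsSum Y NS.H),
      ∀ a, Nonempty (Y a ≅ par A.S'.biv.gf (p a)) := by
  have hb := PS.hurewicz_beta oS (PS.comp (PS.J (PMap.ofHomeo oneC)) yS)
    (hur_bott PS.toGBiv yS hyS)
  have hyS' : PS.comp (PS.J (PMap.ofHomeo (oneC.symm.trans (LC.lunit LC.C).symm)))
      (PS.b oS 1) = yS := by
    have h2 : PS.J (PMap.ofHomeo (oneC.symm.trans (LC.lunit LC.C).symm)) =
        PS.comp (PS.J (PMap.ofHomeo oneC.symm)) (PS.J (PMap.ofHomeo (LC.lunit LC.C).symm)) := by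
      rw [← PS.J_comp]
      rfl
    rw [h2]
    refine (PS.assoc _ _ _).trans ?_
    refine (congrArg (PS.comp (PS.J (PMap.ofHomeo oneC.symm))) hb.symm).trans ?_
    refine (PS.assoc _ _ _).symm.trans ?_
    refine (congrArg (fun z => PS.comp z yS) (PS.invP_homeo oneC).2).trans ?_
    exact PS.id_comp _
  subst hyS'
  obtain ⟨T⟩ := tele_decomp PS oS
    (oneC.symm.trans (LC.lunit LC.C).symm : LC.cpow (Fin 1) ≃ₜ Cn 1) NS
  exact ⟨ℤ × PL2, inferInstance, _, _, T, fun a => tele_par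
    (oneC.symm.trans (LC.lunit LC.C).symm : LC.cpow (Fin 1) ≃ₜ Cn 1) (per2 A) a⟩

/-- (FU2) the retraction -/
theorem ret_MUP {k : ℕ} {g : GenLoop (Fin 4) (Gr {1} k) (Gr.pt {1} k)}
    (hg : IsBottProduct (loopGK (loopToU g))) (A : TE g)
    (LS : LocGF A.S'.biv (loopDatum (e := 1) (loopGK bott))) :
    Ret thM.toBiv.gf LS.H := by
  let M := thM
  obtain ⟨xM, xM', hxM, hM1, hM2⟩ := exists_hur_inv (e := 1) one_pos (loopGK bott) M
  obtain ⟨oM⟩ := exists_orient_of_beta M.toGBiv (M.comp (M.J (PMap.ofHomeo oneC)) xM)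
    (M.comp xM' (M.J (PMap.ofHomeo oneC.symm))) (inv_transport M.toBiv oneC xM xM' hM1 hM2).1
    (inv_transport M.toBiv oneC xM xM' hM1 hM2).2 (hur_bott M.toGBiv xM hxM)
  obtain ⟨PM⟩ := exists_PR M.toBiv
  obtain ⟨yM, hyM⟩ := exists_hur PM.toGBiv (e := 2) two_pos (loopGK (loopToU g))
  obtain ⟨NM⟩ := exists_teleGF PM.toBiv yM
  obtain ⟨LT⟩ := exists_locGF A.T.toBiv (loopDatum (e := 1) (loopGK bott))
  obtain ⟨LM⟩ := exists_locGF M.toBiv (loopDatum (e := 2) (loopGK (loopToU g)))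
  obtain ⟨u, hu⟩ := exists_unit M LS
  obtain ⟨F, hF⟩ := exists_locMap A.S'.inc LS LT
  obtain ⟨c, hc⟩ := exists_comm_unit A.T M LT LM
  obtain ⟨c', hc'⟩ := exists_tele_unit PM (e := 2) two_pos (loopGK (loopToU g)) yM hyM LM NM
  obtain ⟨q, hq⟩ := PM.hurewicz_x oM (PM.comp (PM.J (PMap.ofHomeo twoC)) yM)
    (hur_bottProduct PM.toGBiv _ hg yM hyM)
  obtain ⟨r, hr⟩ := tele_sum_unit oM PM (twoC.symm.trans ((LC.lunit LC.C).symm.prodCongr
      (LC.lunit LC.C).symm : LC.C.prod LC.C ≃ₜ (Cn 1).prod (Cn 1))) yM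
      (fun i => M.comp (M.J (PMap.ofHomeo twoC.symm)) (q i)) (hur_transport PM oM yM q hq)
      (M.comp (M.J (PMap.ofHomeo oneC)) xM)
      ⟨_, (inv_transport M.toBiv oneC xM xM' hM1 hM2).1,
        (inv_transport M.toBiv oneC xM xM' hM1 hM2).2⟩ NM
  refine ⟨u, F ≫ c.hom ≫ c'.hom ≫ r, ?_⟩
  refine ext_evm fun b K x => ?_
  obtain ⟨n, -, f, rfl⟩ := M.cls_surj x 0
  have h1 := unit_locMap M A.S'.inc LS LT u hu F hF b (Fin n) K f
  have h2 : u ≫ F ≫ c.hom ≫ c'.hom ≫ r = ((((u ≫ F) ≫ c.hom) ≫ c'.hom) ≫ r) := by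
    simp only [Category.assoc]
  rw [h2, GF.evm_comp, GF.evm_comp, GF.evm_comp, h1, hc, hc', hr, GF.evm_id]

/-- (FU) `MUP` is a retract of a sum of shifts of `S'`. -/
theorem fullness : Fullness := by
  intro k g hg A
  obtain ⟨cM⟩ := comparison (e := 1) one_pos bott thM
  obtain ⟨oS⟩ := A.exists_orient_S'
  obtain ⟨PS⟩ := exists_PR A.S'.biv
  obtain ⟨yS, hyS⟩ := exists_hur PS.toGBiv (e := 1) one_pos (loopGK bott)
  obtain ⟨NS⟩ := exists_teleGF PS.toBiv yS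
  obtain ⟨LS⟩ := exists_locGF A.S'.biv (loopDatum (e := 1) (loopGK bott))
  obtain ⟨a⟩ := locGF_tele PS one_pos (loopGK bott) yS hyS LS NS
  obtain ⟨ι, hι, p, Y, T, hY⟩ := exists_tele_S' A PS oS yS hyS NS
  refine ⟨ι, hι, p, Y, NS.H, T, hY, ?_⟩
  exact (Ret.of_iso cM).trans ((ret_MUP hg A LS).trans (Ret.of_iso a))

end Pool.Agent.Helper84.Int
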