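import Pool.Agent.Helper84.Int.Alg
import Pool.Agent.Helper84.Sn.TeleKit

/-! MP_ab4156_gt, PROJECT T, layer B. The graded functors `R(A × K, B × ℂ^b)`. -/

open CategoryTheory Topology Filter Set Opposite

noncomputable section

namespace Pool.Agent.Helper84.Int

open Pool.Agent.Helper1.Stab Pool.Agent.Helper84.Sn

section
variable (R : Biv) (A B : LC)

/-- `K ↦ R(A × K, B × Z)` -/
def rsFun (Z : LC) : Testᵒᵖ ⥤ AddCommGrpCat.{0} where
  obj K := AddCommGrpCat.of (R.Hom (A.prod K.unop.obj) (B.prod Z))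
  map f := AddCommGrpCat.ofHom (R.pre (HMap.box (K := A) (L := A) (PMap.id A).cls f.unop.hom)
    (B.prod Z))
  map_id K := by
    ext y
    change R.comp (R.JH (HMap.box (PMap.id A).cls (PMap.id _).cls)) y = y
    rw [HMap.box_cls, PMap.box_id]
    exact R.id_comp y
  map_comp f g := by
    ext y
    change R.comp (R.JH (HMap.box (PMap.id _).cls (HMap.comp f.unop.hom g.unop.hom))) y =
      R.comp (R.JH (HMap.box (PMap.id _).cls g.unop.hom))
        (R.comp (R.JH (HMap.box (PMap.id _).cls f.unop.hom)) y)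
    rw [← R.assoc, ← R.JH_comp]
    congr 2
    generalize f.unop.hom = z
    generalize g.unop.hom = w
    revert z w
    refine HMap.ind fun z => ?_
    refine HMap.ind fun w => ?_
    simp only [HMap.box_cls, HMap.comp_cls, ← PMap.box_comp, PMap.comp_id]

/-- the suspension of the values -/
def rsSusp (K Z : LC) : R.Hom (A.prod K) (B.prod Z) ≃+
    R.Hom (A.prod (LC.C.prod K)) (B.prod (LC.C.prod Z)) :=
  AddEquiv.ofBijective (AddMonoidHom.mk'
    (fun y => R.comp (R.J (PMap.ofHomeo (LC.frontC A K)))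
      (R.comp (R.ltens LC.C y) (R.J (PMap.ofHomeo (LC.frontC B Z).symm))))
    (fun y z => by rw [R.ltens_add, R.add_comp, R.comp_add]))
    (((R.invP_homeo (LC.frontC A K)).pre_bij R (M := B.prod (LC.C.prod Z))).comp
      (((R.invP_homeo (LC.frontC B Z).symm).post_bij R (K := LC.C.prod (A.prod K))).comp
        (R.ltens_C_bijective (A.prod K) (B.prod Z))))

theorem rsSusp_apply {K Z : LC} (y : R.Hom (A.prod K) (B.prod Z)) :
    rsSusp R A B K Z y = R.comp (R.J (PMap.ofHomeo (LC.frontC A K)))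
      (R.comp (R.ltens LC.C y) (R.J (PMap.ofHomeo (LC.frontC B Z).symm))) := rfl

theorem rsSusp_nat {K L Z : LC} (φ : PMap K L.plus) (y : R.Hom (A.prod L) (B.prod Z)) :
    rsSusp R A B K Z (R.comp (R.J (PMap.ltens A φ)) y) =
      R.comp (R.J (PMap.ltens A (PMap.ltens LC.C φ))) (rsSusp R A B L Z y) := by
  rw [rsSusp_apply, rsSusp_apply, R.ltens_J_comp, R.assoc, TL69.JJ, TL69.JJ]
  congr 2
  ext ⟨a, c, k⟩
  change smashPt LC.C (A.prod L) (((c : ℂ) : OnePoint ℂ), smashPt A L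
    ((a : OnePoint A), φ k)) =
    (PMap.ofHomeo (LC.frontC A L)).plus (smashPt A (LC.C.prod L)
      ((a : OnePoint A), smashPt LC.C L (((c : ℂ) : OnePoint ℂ), φ k)))
  rcases φ k with _ | l <;> rfl

/-- The graded functor `H^b(K) = R(A × K, B × ℂ^b)`. -/
def RS : GF where
  h b := rsFun R A B (Zb b)
  σ b := NatIso.ofComponents (fun K => (rsSusp R A B K.unop.obj (Zb b)).toAddCommGrpIso) (by
    intro X Y f
    ext y
    change rsSusp R A B Y.unop.obj (Zb b) (R.comp (R.JH (HMap.box (PMap.id A).cls f.unop.hom)) y) =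
      R.comp (R.JH (HMap.box (PMap.id A).cls (HMap.box (PMap.id LC.C).cls f.unop.hom)))
        (rsSusp R A B X.unop.obj (Zb b) y)
    generalize f.unop.hom = z
    revert z
    refine HMap.ind fun φ => ?_
    exact rsSusp_nat R A B φ y)

theorem RS_map {b : ℕ} {K L : Test} (φ : PMap K.obj L.obj.plus)
    (y : R.Hom (A.prod L.obj) (B.prod (Zb b))) :
    ((RS R A B).h b).map (Quiver.Hom.op (X := K) (Y := L) (ObjectProperty.homMk φ.cls)) y =
      R.comp (R.J (PMap.ltens A φ)) y := rfl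

theorem RS_σ {b : ℕ} {K : Test} (y : R.Hom (A.prod K.obj) (B.prod (Zb b))) :
    ((RS R A B).σ b).hom.app (op K) y = rsSusp R A B K.obj (Zb b) y := rfl

end

/-- Isomorphisms of graded functors from additive bijections. -/
theorem iso_ofMaps (G H : GF)
    (f : ∀ (b : ℕ) (K : Test), ((G.h b).obj (op K) : Type) →+ ((H.h b).obj (op K) : Type))
    (hnat : ∀ (b : ℕ) (K L : Test) (φ : PMap K.obj L.obj.plus) (y : (G.h b).obj (op L)),
      f b K ((G.h b).map (Quiver.Hom.op (X := K) (Y := L) (ObjectProperty.homMk φ.cls)) y) =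
        (H.h b).map (Quiver.Hom.op (X := K) (Y := L) (ObjectProperty.homMk φ.cls)) (f b L y))
    (hσ : ∀ (b : ℕ) (K : Test) (y : (G.h b).obj (op K)),
      f (b + 1) (Test.cx.obj K) (((G.σ b).hom.app (op K)) y) =
        ((H.σ b).hom.app (op K)) (f b K y))
    (hb : ∀ b K, Function.Bijective (f b K)) : Nonempty (G ≅ H) := by
  obtain ⟨F, hF⟩ := GF.ofMaps G H f hnat hσ
  have h1 : IsIso F := isIso_of_bij F fun b K => by
    have h2 : ⇑(GF.evm b K F) = ⇑(f b K) := funext fun y => hF b K y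
    rw [h2]
    exact hb b K
  exact ⟨asIso F⟩

/-! ## Suspension and periodicity (packet RSB, helper65) -/

namespace RSB65

section Susp
variable (R : Biv) (A B : LC)

/-- suspension of both factors by `ℂ` -/
def sMap (K Z : LC) (y : R.Hom (A.prod K) (B.prod Z)) :
    R.Hom ((LC.C.prod A).prod K) ((LC.C.prod B).prod Z) :=
  R.comp (R.J (PMap.ofHomeo (LC.mid LC.C A K)))
    (R.comp (R.ltens LC.C y) (R.J (PMap.ofHomeo (LC.mid LC.C B Z).symm)))

theorem sMap_add (K Z : LC) (y z : R.Hom (A.prod K) (B.prod Z)) :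
    sMap R A B K Z (y + z) = sMap R A B K Z y + sMap R A B K Z z := by
  unfold sMap
  rw [R.ltens_add, R.add_comp, R.comp_add]

theorem sMap_bij (K Z : LC) : Function.Bijective (sMap R A B K Z) :=
  (((R.invP_homeo (LC.mid LC.C A K)).pre_bij R (M := (LC.C.prod B).prod Z)).comp
      (((R.invP_homeo (LC.mid LC.C B Z).symm).post_bij R (K := LC.C.prod (A.prod K))).comp
        (R.ltens_C_bijective (A.prod K) (B.prod Z))))

theorem sMap_nat {K L Z : LC} (φ : PMap K L.plus) (y : R.Hom (A.prod L) (B.prod Z)) :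
    sMap R A B K Z (R.comp (R.J (PMap.ltens A φ)) y) =
      R.comp (R.J (PMap.ltens (LC.C.prod A) φ)) (sMap R A B L Z y) := by
  unfold sMap
  rw [R.ltens_J_comp, R.assoc, TL69.JJ, TL69.JJ]
  congr 2
  ext ⟨⟨c, a⟩, k⟩
  change smashPt LC.C (A.prod L) (((c : ℂ) : OnePoint ℂ), smashPt A L
    ((a : OnePoint A), φ k)) =
    (PMap.ofHomeo (LC.mid LC.C A L)).plus (smashPt (LC.C.prod A) L
      (((c, a) : LC.C.prod A) , φ k))
  rcases φ k with _ | l <;> rfl

theorem sMap_susp {K Z : LC} (y : R.Hom (A.prod K) (B.prod Z)) :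
    sMap R A B (LC.C.prod K) (LC.C.prod Z) (rsSusp R A B K Z y) =
      rsSusp R (LC.C.prod A) (LC.C.prod B) K Z (sMap R A B K Z y) := by
  rw [rsSusp_apply, rsSusp_apply]
  unfold sMap
  have e0 : ∀ {A B C : LC} (f : R.Hom A B) (g : R.Hom B C), R.ltens LC.C (R.comp f g) =
      R.comp (R.ltens LC.C f) (R.ltens LC.C g) := fun f g =>
    Helper39.Stab.ltens_comp R LC.C f g
  have hll := tc_ll (R := R) LC.C LC.C y
  have hll2 : R.ltens LC.C (R.ltens LC.C y) =
      R.comp (R.J (PMap.ofHomeo (ll LC.C LC.C (A.prod K))))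
        (R.comp (R.ltens LC.C (R.ltens LC.C y))
          (R.J (PMap.ofHomeo (ll LC.C LC.C (B.prod Z)).symm))) := by
    rw [← R.assoc, hll, R.assoc, J_homeo (R := R), one, R.comp_id]
  rw [e0, e0, e0, e0, ltens_J, ltens_J, ltens_J, ltens_J]
  conv_lhs => rw [hll2]
  simp only [R.assoc]
  simp only [TL69.JJ, J_J]
  rfl

end Susp

/-- (RS4) suspension by `ℂ` -/
theorem rs_susp {R : Biv} {A B : LC} :
    Nonempty (RS R A B ≅ RS R (LC.C.prod A) (LC.C.prod B)) := by
  refine iso_ofMaps (RS R A B) (RS R (LC.C.prod A) (LC.C.prod B))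
    (fun b K => AddMonoidHom.mk' (fun y => sMap R A B K.obj (Zb b) y)
      (fun y z => sMap_add R A B K.obj (Zb b) y z)) ?_ ?_ ?_
  · intro b K L φ y
    exact sMap_nat R A B φ y
  · intro b K y
    exact sMap_susp R A B y
  · intro b K
    exact sMap_bij R A B K.obj (Zb b)

section Per
variable (R : Biv) (A B V : LC) (p : Per R V)

/-- composition with the periodicity class -/
def pMap (K Z : LC) (y : R.Hom (A.prod K) ((V.prod B).prod Z)) : R.Hom (A.prod K) (B.prod Z) :=
  R.comp y (R.comp (R.J (PMap.ofHomeo (LC.mid V B Z)))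
    (R.comp (R.tens p.b (B.prod Z)) (R.J (PMap.ofHomeo (LC.lunit (B.prod Z))))))

theorem pMap_bij (K Z : LC) : Function.Bijective (pMap R A B V p K Z) := by
  have h1 := (R.invP_homeo (LC.mid V B Z)).post_bij R (K := A.prod K)
  have h2 := (basisEquiv54 p (A.prod K) (B.prod Z)).bijective
  have e : pMap R A B V p K Z = (basisEquiv54 p (A.prod K) (B.prod Z)) ∘
      (fun y : R.Hom (A.prod K) ((V.prod B).prod Z) =>
        R.comp y (R.J (PMap.ofHomeo (LC.mid V B Z)))) := by
    funext y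
    show pMap R A B V p K Z y = basisEquiv54 p (A.prod K) (B.prod Z) _
    rw [basisEquiv_apply54, R.assoc]
    rfl
  rw [e]
  exact h2.comp h1

theorem pMap_susp {K Z : LC} (y : R.Hom (A.prod K) ((V.prod B).prod Z)) :
    pMap R A B V p (LC.C.prod K) (LC.C.prod Z) (rsSusp R A (V.prod B) K Z y) =
      rsSusp R A B K Z (pMap R A B V p K Z y) := by
  rw [rsSusp_apply, rsSusp_apply]
  unfold pMap
  have e0 : ∀ {A B C : LC} (f : R.Hom A B) (g : R.Hom B C), R.ltens LC.C (R.comp f g) =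
      R.comp (R.ltens LC.C f) (R.ltens LC.C g) := fun f g =>
    Helper39.Stab.ltens_comp R LC.C f g
  have e1 := Helper39.Stab.ltens_tens_nf R LC.C p.b (B.prod Z)
  have e2 : R.comp (R.tens p.b (B.prod (LC.C.prod Z)))
      (R.J (PMap.ltens LC.point (PMap.ofHomeo (LC.frontC B Z)))) =
      R.comp (R.J (PMap.ltens V (PMap.ofHomeo (LC.frontC B Z))))
        (R.tens p.b (LC.C.prod (B.prod Z))) := sq_exch p.b (PMap.ofHomeo (LC.frontC B Z))
  have e3 : R.tens p.b (B.prod (LC.C.prod Z)) =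
      R.comp (R.J (PMap.ltens V (PMap.ofHomeo (LC.frontC B Z))))
        (R.comp (R.tens p.b (LC.C.prod (B.prod Z)))
          (R.J (PMap.ltens LC.point (PMap.ofHomeo (LC.frontC B Z).symm)))) := by
    rw [← R.assoc, ← e2, R.assoc, J_J]
    have h : (PMap.ltens LC.point (PMap.ofHomeo (LC.frontC B Z).symm)).comp
        (PMap.ltens LC.point (PMap.ofHomeo (LC.frontC B Z))) =
        PMap.id (LC.point.prod (B.prod (LC.C.prod Z))) := PMap.ext fun k => rfl
    rw [h, R.comp_id]
  rw [e0, e0, e0, e1, ltens_J, ltens_J, e3]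
  simp only [R.assoc]
  simp only [TL69.JJ, J_J]
  rfl

end Per

/-- (RS5) periodicity -/
theorem rs_per {R : Biv} {A B V : LC} (p : Per R V) :
    Nonempty (RS R A (V.prod B) ≅ RS R A B) := by
  refine iso_ofMaps (RS R A (V.prod B)) (RS R A B)
    (fun b K => AddMonoidHom.mk' (fun y => pMap R A B V p K.obj (Zb b) y)
      (fun y z => R.add_comp _ _ _)) ?_ ?_ ?_
  · intro b K L φ y
    exact R.assoc _ _ _
  · intro b K y
    exact pMap_susp R A B V p y
  · intro b K
    exact pMap_bij R A B V p K.obj (Zb b)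

end RSB65

section
variable {R : Biv} {A B A' B' V : LC}

theorem rs59_comp_symm {K L : LC} (R : Biv) (e : K ≃ₜ L) {M : LC} (z : R.Hom L M) :
    R.comp (R.J (PMap.ofHomeo (K := L) (L := K) e.symm)) (R.comp (R.J (PMap.ofHomeo e)) z) = z := by
  rw [← R.assoc, (R.invP_homeo e).2, R.id_comp]

/-- composition on both sides -/
def rs59_hom {R : Biv} {K K' L L' : LC} (f : R.Hom K' K) (g : R.Hom L L') :
    R.Hom K L →+ R.Hom K' L' :=
  AddMonoidHom.mk' (fun z => R.comp f (R.comp z g)) (fun x y => by rw [R.add_comp, R.comp_add])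

/-- composition on the left -/
def rs59_lhom {R : Biv} {K K' : LC} (f : R.Hom K' K) (L : LC) : R.Hom K L →+ R.Hom K' L :=
  AddMonoidHom.mk' (fun z => R.comp f z) (fun x y => by rw [R.comp_add])

/-- (RS1) no twist -/
theorem rs_gf (R : Biv) : Nonempty (RS R LC.point LC.point ≅ R.gf) := by
  refine iso_ofMaps (RS R LC.point LC.point) R.gf
    (fun b K => rs59_hom (R.J (PMap.ofHomeo (K := K.obj) (L := LC.point.prod K.obj)
      (LC.lunit K.obj).symm)) (R.J (PMap.ofHomeo (LC.lunit (Zb b))))) ?_ ?_ ?_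
  · intro b K L φ y
    change R.comp (R.J (PMap.ofHomeo (K := K.obj) (L := LC.point.prod K.obj)
        (LC.lunit K.obj).symm)) (R.comp (R.comp (R.J (PMap.ltens LC.point φ)) y)
          (R.J (PMap.ofHomeo (LC.lunit (Zb b))))) =
      R.comp (R.J φ) (R.comp (R.J (PMap.ofHomeo (K := L.obj) (L := LC.point.prod L.obj)
        (LC.lunit L.obj).symm)) (R.comp y (R.J (PMap.ofHomeo (LC.lunit (Zb b))))))
    rw [R.assoc, TL69.JJ, TL69.JJ]
    congr 2
  · intro b K y
    change R.comp (R.J (PMap.ofHomeo (K := LC.C.prod K.obj) (L := LC.point.prod (LC.C.prod K.obj))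
        (LC.lunit (LC.C.prod K.obj)).symm))
          (R.comp (R.comp (R.J (PMap.ofHomeo (LC.frontC LC.point K.obj)))
            (R.comp (R.ltens LC.C y) (R.J (PMap.ofHomeo (K := LC.C.prod (LC.point.prod (Zb b)))
              (L := LC.point.prod (LC.C.prod (Zb b))) (LC.frontC LC.point (Zb b)).symm))))
            (R.J (PMap.ofHomeo (LC.lunit (LC.C.prod (Zb b)))))) =
      R.ltens LC.C (R.comp (R.J (PMap.ofHomeo (K := K.obj) (L := LC.point.prod K.obj)
        (LC.lunit K.obj).symm)) (R.comp y (R.J (PMap.ofHomeo (LC.lunit (Zb b))))))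
    rw [R.ltens_J_comp, Helper39.Stab.ltens_comp, Helper39.Stab.ltens_J, R.assoc, R.assoc,
      TL69.JJ, ← R.J_comp]
    rfl
  · intro b K
    have h1 := (R.invP_homeo (K := K.obj) (L := LC.point.prod K.obj)
      (LC.lunit K.obj).symm).pre_bij R (M := Zb b)
    have h2 := (R.invP_homeo (K := LC.point.prod (Zb b)) (L := Zb b)
      (LC.lunit (Zb b))).post_bij R (K := LC.point.prod K.obj)
    exact h1.comp h2

/-- the exchange of two complex lines is trivial -/
theorem rs59_swap (R : Biv) (Z : LC) :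
    R.J (PMap.ofHomeo (K := LC.C.prod (LC.C.prod Z)) (L := LC.C.prod (LC.C.prod Z))
      (LC.frontC LC.C Z).symm) = R.J (PMap.id _) := by
  have h1 : Helper63.Stab.jh R (K := LC.C.prod LC.C) (L := LC.C.prod LC.C) (LC.swap LC.C LC.C) =
      Helper63.Stab.jh R (K := LC.C.prod LC.C) (L := LC.C.prod LC.C) (Homeomorph.refl (ℂ × ℂ)) := by
    exact Helper63.Stab.IsPerm.jh_eq R
      ((Helper63.Stab.IsPerm.prodComm ℂ ℂ).of_eq fun _ => rfl) (Helper63.Stab.IsPerm.refl _)
  have h2 : R.J (PMap.box (PMap.ofHomeo (LC.swap LC.C LC.C)) (PMap.id Z)) =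
      R.J (PMap.box (PMap.ofHomeo (K := LC.C.prod LC.C) (L := LC.C.prod LC.C)
        (Homeomorph.refl (ℂ × ℂ))) (PMap.id Z)) := by
    rw [← R.tens_J, ← R.tens_J]
    exact congrArg (fun t => R.tens t Z) h1
  have h3 := congrArg (fun t => R.comp (R.J (PMap.ofHomeo (K := LC.C.prod (LC.C.prod Z))
    (L := (LC.C.prod LC.C).prod Z) (Homeomorph.prodAssoc LC.C LC.C Z).symm))
    (R.comp t (R.J (PMap.ofHomeo (K := (LC.C.prod LC.C).prod Z) (L := LC.C.prod (LC.C.prod Z))
      (Homeomorph.prodAssoc LC.C LC.C Z))))) h2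
  beta_reduce at h3
  rw [← R.J_comp, ← R.J_comp, ← R.J_comp, ← R.J_comp] at h3
  exact h3

/-- (RS2) the shift -/
theorem rs_shift (R : Biv) : Nonempty (RS R LC.point LC.C ≅ R.gf.shift) := by
  refine iso_ofMaps (RS R LC.point LC.C) R.gf.shift
    (fun b K => rs59_lhom (R.J (PMap.ofHomeo (K := K.obj) (L := LC.point.prod K.obj)
      (LC.lunit K.obj).symm)) (LC.C.prod (Zb b))) ?_ ?_ ?_
  · intro b K L φ y
    change R.comp (R.J (PMap.ofHomeo (K := K.obj) (L := LC.point.prod K.obj)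
        (LC.lunit K.obj).symm)) (R.comp (R.J (PMap.ltens LC.point φ)) y) =
      R.comp (R.J φ) (R.comp (R.J (PMap.ofHomeo (K := L.obj) (L := LC.point.prod L.obj)
        (LC.lunit L.obj).symm)) y)
    rw [TL69.JJ, TL69.JJ]
    congr 2
  · intro b K y
    change R.comp (R.J (PMap.ofHomeo (K := LC.C.prod K.obj) (L := LC.point.prod (LC.C.prod K.obj))
        (LC.lunit (LC.C.prod K.obj)).symm))
          (R.comp (R.J (PMap.ofHomeo (LC.frontC LC.point K.obj)))
            (R.comp (R.ltens LC.C y) (R.J (PMap.ofHomeo (K := LC.C.prod (LC.C.prod (Zb b)))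
              (L := LC.C.prod (LC.C.prod (Zb b))) (LC.frontC LC.C (Zb b)).symm)))) =
      R.ltens LC.C (R.comp (R.J (PMap.ofHomeo (K := K.obj) (L := LC.point.prod K.obj)
        (LC.lunit K.obj).symm)) y)
    rw [rs59_swap, R.comp_id, R.ltens_J_comp, TL69.JJ]
    rfl
  · intro b K
    exact (R.invP_homeo (K := K.obj) (L := LC.point.prod K.obj)
      (LC.lunit K.obj).symm).pre_bij R (M := LC.C.prod (Zb b))

/-- (RS3) homeomorphisms -/
theorem rs_homeo (e : A ≃ₜ A') (e' : B ≃ₜ B') : Nonempty (RS R A B ≅ RS R A' B') := by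
  have hE : ∀ K : LC, ∃ h : A'.prod K ≃ₜ A.prod K, ∀ a k, h (a, k) = (e.symm a, k) := fun K =>
    ⟨e.symm.prodCongr (Homeomorph.refl K), fun _ _ => rfl⟩
  have hE' : ∀ K : LC, ∃ h : B.prod K ≃ₜ B'.prod K, ∀ a k, h (a, k) = (e' a, k) := fun K =>
    ⟨e'.prodCongr (Homeomorph.refl K), fun _ _ => rfl⟩
  choose E hE using hE
  choose E' hE' using hE'
  refine iso_ofMaps (RS R A B) (RS R A' B')
    (fun b K => rs59_hom (R.J (PMap.ofHomeo (E K.obj))) (R.J (PMap.ofHomeo (E' (Zb b)))))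
    ?_ ?_ ?_
  · intro b K L φ y
    change R.comp (R.J (PMap.ofHomeo (E K.obj))) (R.comp (R.comp (R.J (PMap.ltens A φ)) y)
          (R.J (PMap.ofHomeo (E' (Zb b))))) =
      R.comp (R.J (PMap.ltens A' φ)) (R.comp (R.J (PMap.ofHomeo (E L.obj)))
        (R.comp y (R.J (PMap.ofHomeo (E' (Zb b))))))
    rw [R.assoc, TL69.JJ, TL69.JJ]
    congr 2
    ext ⟨a, k⟩
    have h1 : E K.obj (a, k) = (e.symm a, k) := hE _ _ _
    change (PMap.ltens A φ).plus ((E K.obj (a, k) : A.prod K.obj) : OnePoint (A.prod K.obj)) =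
      (PMap.ofHomeo (E L.obj)).plus (smashPt A' L.obj ((a : OnePoint A'), φ k))
    rw [h1]
    change smashPt A L.obj ((((e.symm a : A)) : OnePoint A), φ k) = _
    rcases hk : φ k with _ | l
    · rfl
    · change (((e.symm a, l) : A.prod L.obj) : OnePoint (A.prod L.obj)) =
        ((E L.obj (a, l) : A.prod L.obj) : OnePoint (A.prod L.obj))
      rw [hE]
  · intro b K y
    change R.comp (R.J (PMap.ofHomeo (E (LC.C.prod K.obj))))
          (R.comp (R.comp (R.J (PMap.ofHomeo (LC.frontC A K.obj)))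
            (R.comp (R.ltens LC.C y) (R.J (PMap.ofHomeo (K := LC.C.prod (B.prod (Zb b)))
              (L := B.prod (LC.C.prod (Zb b))) (LC.frontC B (Zb b)).symm))))
            (R.J (PMap.ofHomeo (E' (LC.C.prod (Zb b)))))) =
      R.comp (R.J (PMap.ofHomeo (LC.frontC A' K.obj)))
        (R.comp (R.ltens LC.C (R.comp (R.J (PMap.ofHomeo (E K.obj)))
          (R.comp y (R.J (PMap.ofHomeo (E' (Zb b)))))))
            (R.J (PMap.ofHomeo (K := LC.C.prod (B'.prod (Zb b)))
              (L := B'.prod (LC.C.prod (Zb b))) (LC.frontC B' (Zb b)).symm)))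
    rw [R.ltens_J_comp, Helper39.Stab.ltens_comp, Helper39.Stab.ltens_J, R.assoc, R.assoc,
      R.assoc, R.assoc, TL69.JJ, TL69.JJ, ← R.J_comp, ← R.J_comp]
    congr 1
    · congr 1
      ext ⟨a, c, k⟩
      have h1 : E (LC.C.prod K.obj) (a, (c, k)) = (e.symm a, (c, k)) := hE _ _ _
      have h2 : E K.obj (a, k) = (e.symm a, k) := hE _ _ _
      change (PMap.ofHomeo (LC.frontC A K.obj)).plus
        ((E (LC.C.prod K.obj) (a, (c, k)) : A.prod (LC.C.prod K.obj)) :
          OnePoint (A.prod (LC.C.prod K.obj))) =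
        smashPt LC.C (A.prod K.obj) (((c : ℂ) : OnePoint ℂ),
          ((E K.obj (a, k) : A.prod K.obj) : OnePoint (A.prod K.obj)))
      rw [h1, h2]
      rfl
    · congr 2
      ext ⟨c, bb, k⟩
      have h1 : E' (LC.C.prod (Zb b)) (bb, (c, k)) = (e' bb, (c, k)) := hE' _ _ _
      have h2 : E' (Zb b) (bb, k) = (e' bb, k) := hE' _ _ _
      change ((E' (LC.C.prod (Zb b)) (bb, (c, k)) : B'.prod (LC.C.prod (Zb b))) :
          OnePoint (B'.prod (LC.C.prod (Zb b)))) =
        (PMap.ofHomeo (K := LC.C.prod (B'.prod (Zb b)))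
              (L := B'.prod (LC.C.prod (Zb b))) (LC.frontC B' (Zb b)).symm).plus
          (smashPt LC.C (B'.prod (Zb b)) (((c : ℂ) : OnePoint ℂ),
            ((E' (Zb b) (bb, k) : B'.prod (Zb b)) : OnePoint (B'.prod (Zb b)))))
      rw [h1, h2]
      rfl
  · intro b K
    have h1 := (R.invP_homeo (E K.obj)).pre_bij R (M := B'.prod (Zb b))
    have h2 := (R.invP_homeo (E' (Zb b))).post_bij R (K := A.prod K.obj)
    exact h1.comp h2

/-- (RS4) suspension by `ℂ` -/
theorem rs_susp : Nonempty (RS R A B ≅ RS R (LC.C.prod A) (LC.C.prod B)) :=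
  RSB65.rs_susp

/-- (RS5) periodicity -/
theorem rs_per (p : Per R V) : Nonempty (RS R A (V.prod B) ≅ RS R A B) :=
  RSB65.rs_per p

/-- (RS6) the graded functors of a periodic theory. Induction: for `l = 0` reduce `d` by two with
`rs_per`; for `l + 1` and `d + 1` use `rs_susp`; for `l + 1` and `d = 0` raise `d` to `2` with
`rs_per` and use `rs_susp`. -/
theorem rs_par (p : Per R (Cn 2)) (l d : ℕ) :
    Nonempty (RS R (Cn l) (Cn d) ≅ par R.gf (l + d).bodd) := by
  have h2 : ∀ (A : LC) (d : ℕ), Nonempty (RS R A (Cn (d + 2)) ≅ RS R A (Cn d)) := by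
    intro A d
    obtain ⟨e1⟩ := rs_homeo (R := R) (A := A) (A' := A) (B := Cn (d + 2))
      (B' := (Cn 2).prod (Cn d)) (Homeomorph.refl A)
      ((CnCast (Nat.add_comm d 2)).trans (CnAdd 2 d).symm)
    obtain ⟨e2⟩ := rs_per (R := R) (A := A) (B := Cn d) (V := Cn 2) p
    exact ⟨e1 ≪≫ e2⟩
  have h1 : ∀ l d : ℕ, Nonempty (RS R (Cn (l + 1)) (Cn (d + 1)) ≅ RS R (Cn l) (Cn d)) := by
    intro l d
    obtain ⟨e1⟩ := rs_homeo (R := R) (A := Cn (l + 1)) (A' := LC.C.prod (Cn l)) (B := Cn (d + 1))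
      (B' := LC.C.prod (Cn d)) (LC.swap (Cn l) LC.C) (LC.swap (Cn d) LC.C)
    obtain ⟨e2⟩ := rs_susp (R := R) (A := Cn l) (B := Cn d)
    exact ⟨e1 ≪≫ e2.symm⟩
  have hb : ∀ k : ℕ, (k + 2).bodd = k.bodd := fun k => by
    rw [Nat.bodd_succ, Nat.bodd_succ, Bool.not_not]
  induction l generalizing d with
  | zero =>
    induction d using Nat.twoStepInduction with
    | zero => exact rs_gf R
    | one =>
      obtain ⟨e1⟩ := rs_homeo (R := R) (A := Cn 0) (A' := LC.point) (B := Cn 1) (B' := LC.C)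
        (Homeomorph.refl LC.point) (LC.lunit LC.C)
      obtain ⟨e2⟩ := rs_shift R
      exact ⟨e1 ≪≫ e2⟩
    | more d ih _ =>
      obtain ⟨e1⟩ := h2 (Cn 0) d
      obtain ⟨e2⟩ := ih
      rw [show 0 + (d + 2) = (0 + d) + 2 by ring, hb]
      exact ⟨e1 ≪≫ e2⟩
  | succ l ih =>
    have h3 : ∀ d : ℕ, Nonempty (RS R (Cn (l + 1)) (Cn (d + 1)) ≅
        par R.gf (l + 1 + (d + 1)).bodd) := by
      intro d
      obtain ⟨e1⟩ := h1 l d
      obtain ⟨e2⟩ := ih d
      rw [show l + 1 + (d + 1) = (l + d) + 2 by ring, hb]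
      exact ⟨e1 ≪≫ e2⟩
    cases d with
    | succ d => exact h3 d
    | zero =>
      obtain ⟨e1⟩ := h2 (Cn (l + 1)) 0
      obtain ⟨e2⟩ := h3 1
      rw [show l + 1 + (1 + 1) = (l + 1 + 0) + 2 by ring, hb] at e2
      exact ⟨e1.symm ≪≫ e2⟩

end

end Pool.Agent.Helper84.Int
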