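import Pool.Agent.Helper56.BSU.Sum

/-! MP_ab4156_gt, PROJECT T, layer A. Retracts and sums of graded functors. -/

open CategoryTheory Topology Filter Set Opposite

noncomputable section

namespace Pool.Agent.Helper84.Int

open Pool.Agent.Helper1.Stab

/-! ## Retracts -/

/-- `A` is a retract of `B` -/
def Ret (A B : GF) : Prop := ∃ (i : A ⟶ B) (r : B ⟶ A), i ≫ r = 𝟙 A

theorem Ret.refl (A : GF) : Ret A A := ⟨𝟙 A, 𝟙 A, Category.id_comp _⟩

theorem Ret.trans {A B C : GF} (h : Ret A B) (h' : Ret B C) : Ret A C := by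
  obtain ⟨i, r, h⟩ := h
  obtain ⟨j, s, h'⟩ := h'
  refine ⟨i ≫ j, s ≫ r, ?_⟩
  rw [Category.assoc, ← Category.assoc j, h', Category.id_comp, h]

theorem Ret.of_iso {A B : GF} (e : A ≅ B) : Ret A B := ⟨e.hom, e.inv, e.hom_inv_id⟩

theorem Ret.map {A B : GF} (F : GF ⥤ GF) (h : Ret A B) : Ret (F.obj A) (F.obj B) := by
  obtain ⟨i, r, h⟩ := h
  exact ⟨F.map i, F.map r, by rw [← F.map_comp, h, F.map_id]⟩

theorem Ret.shift {A B : GF} (h : Ret A B) : Ret A.shift B.shift := h.map GF.shiftF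

/-! ## Morphisms -/

theorem ext_evm {G H : GF} {f g : G ⟶ H}
    (h : ∀ (b : ℕ) (K : Test) (y : (G.h b).obj (op K)), GF.evm b K f y = GF.evm b K g y) :
    f = g := by
  refine GF.hom_ext fun b => ?_
  refine NatTrans.ext (funext fun K => ?_)
  exact AddCommGrpCat.hom_ext (AddMonoidHom.ext fun y => h b K.unop y)

theorem evm_map {G H : GF} (f : G ⟶ H) {b : ℕ} {K L : Test} (g : K ⟶ L)
    (x : (G.h b).obj (op L)) :
    GF.evm b K f ((G.h b).map g.op x) = (H.h b).map g.op (GF.evm b L f x) :=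
  congrArg (fun t => t.hom x) ((f.app b).naturality g.op)

theorem evm_σ {G H : GF} (f : G ⟶ H) {b : ℕ} {K : Test} (x : (G.h b).obj (op K)) :
    GF.evm (b + 1) (Test.cx.obj K) f ((G.σ b).hom.app (op K) x) =
      (H.σ b).hom.app (op K) (GF.evm b K f x) :=
  congrArg (fun t => t.hom x) (GF.Hom.comm_apply f b (op K))

theorem σ_injective (G : GF) (b : ℕ) (K : Test) :
    Function.Injective ((G.σ b).hom.app (op K) :
      ((G.h b).obj (op K) : Type) → ((G.h (b + 1)).obj (op (Test.cx.obj K)) : Type)) := by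
  intro x y h
  have h1 : ∀ z : (G.h b).obj (op K), (G.σ b).inv.app (op K) ((G.σ b).hom.app (op K) z) = z := by
    intro z
    have h2 := congrArg (fun t => NatTrans.app t (op K)) (G.σ b).hom_inv_id
    exact congrArg (fun t => t.hom z) h2
  rw [← h1 x, ← h1 y]
  exact congrArg ((G.σ b).inv.app (op K)) h

/-- A family of additive maps, natural for morphisms of test spaces and compatible with `σ`, is a
morphism. -/
def mkHom (G H : GF)
    (f : ∀ (b : ℕ) (K : Test), ((G.h b).obj (op K) : Type) →+ ((H.h b).obj (op K) : Type))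
    (hnat : ∀ (b : ℕ) (K L : Test) (g : K ⟶ L) (y : (G.h b).obj (op L)),
      f b K ((G.h b).map g.op y) = (H.h b).map g.op (f b L y))
    (hσ : ∀ (b : ℕ) (K : Test) (y : (G.h b).obj (op K)),
      f (b + 1) (Test.cx.obj K) (((G.σ b).hom.app (op K)) y) =
        ((H.σ b).hom.app (op K)) (f b K y)) : G ⟶ H :=
  GF.Hom.mk' (G := G) (H := H)
    (fun b =>
      { app := fun K => AddCommGrpCat.ofHom (f b K.unop)
        naturality := fun K L g => by
          ext x
          exact hnat b L.unop K.unop g.unop x })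
    (fun b K => by
      ext x
      exact hσ b K.unop x)

theorem mkHom_evm (G H : GF)
    (f : ∀ (b : ℕ) (K : Test), ((G.h b).obj (op K) : Type) →+ ((H.h b).obj (op K) : Type))
    (hnat hσ) (b : ℕ) (K : Test) (y : (G.h b).obj (op K)) :
    GF.evm b K (mkHom G H f hnat hσ) y = f b K y := rfl

/-- a bijective morphism is an isomorphism -/
theorem isIso_of_bij {G H : GF} (f : G ⟶ H)
    (h : ∀ (b : ℕ) (K : Test), Function.Bijective (GF.evm b K f)) : IsIso f := by
  refine GF.isIso_of_app f fun b => ?_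
  have : ∀ K, IsIso ((f.app b).app K) := fun K => by
    rw [ConcreteCategory.isIso_iff_bijective]
    exact h b K.unop
  exact NatIso.isIso_of_isIso_app _

/-! ## Sums -/

section
variable {ι κ : Type} {X : ι → GF} {A : GF}

/-- local finiteness of a family of maps -/
def LF {Y : GF} (f : ∀ i, Y ⟶ X i) : Prop :=
  ∀ (b : ℕ) (K : Test) (y : (Y.h b).obj (op K)), ∃ F : Finset ι, ∀ i, i ∉ F →
    GF.evm b K (f i) y = 0

theorem pr_inj_of (S : IsSum X A) [DecidableEq ι] (i j : ι) : S.inj i ≫ S.pr j =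
    if h : i = j then eqToHom (by rw [h]) else 0 := by
  by_cases h : i = j
  · subst h
    rw [dif_pos rfl, S.inj_pr]
    rfl
  · rw [dif_neg h, S.inj_pr_ne i j h]

/-- two maps out of a sum are equal if their components are -/
theorem sum_hom_ext (S : IsSum X A) {Y : GF} {f g : A ⟶ Y} (h : ∀ i, S.inj i ≫ f = S.inj i ≫ g) :
    f = g := by
  refine ext_evm fun b K x => ?_
  obtain ⟨F, hF⟩ := S.fin' x
  rw [hF, map_sum, map_sum]
  refine Finset.sum_congr rfl fun i _ => ?_
  have h1 : GF.evm b K (S.pr i ≫ S.inj i ≫ f) x = GF.evm b K (S.pr i ≫ S.inj i ≫ g) x := by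
    rw [h i]
  exact h1

/-- two maps to a sum are equal if their components are -/
theorem sum_hom_ext' (S : IsSum X A) {Y : GF} {f g : Y ⟶ A} (h : ∀ i, f ≫ S.pr i = g ≫ S.pr i) :
    f = g := by
  classical
  refine ext_evm fun b K y => ?_
  obtain ⟨F, hF⟩ := S.fin' (GF.evm b K f y)
  obtain ⟨G, hG⟩ := S.fin' (GF.evm b K g y)
  have hF' := S.fin_superset hF (Finset.subset_union_left (s₂ := G))
  have hG' := S.fin_superset hG (Finset.subset_union_right (s₁ := F))
  rw [hF', hG']
  refine Finset.sum_congr rfl fun i _ => ?_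
  have h1 : GF.evm b K (f ≫ S.pr i) y = GF.evm b K (g ≫ S.pr i) y := by rw [h i]
  have h2 : GF.evm b K (S.pr i) (GF.evm b K f y) = GF.evm b K (S.pr i) (GF.evm b K g y) := h1
  change GF.evm b K (S.inj i) (GF.evm b K (S.pr i) (GF.evm b K f y)) =
    GF.evm b K (S.inj i) (GF.evm b K (S.pr i) (GF.evm b K g y))
  rw [h2]

/-- the value of the map to a sum given by a locally finite family -/
def liftFun (S : IsSum X A) {Y : GF} (f : ∀ i, Y ⟶ X i) (hf : LF f) {b : ℕ} {K : Test}
    (y : (Y.h b).obj (op K)) : (A.h b).obj (op K) :=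
  ∑ i ∈ (hf b K y).choose, GF.evm b K (f i ≫ S.inj i) y

theorem liftFun_eq (S : IsSum X A) {Y : GF} (f : ∀ i, Y ⟶ X i) (hf : LF f) {b : ℕ} {K : Test}
    (y : (Y.h b).obj (op K)) (F : Finset ι) (hF : ∀ i, i ∉ F → GF.evm b K (f i) y = 0) :
    liftFun S f hf y = ∑ i ∈ F, GF.evm b K (f i ≫ S.inj i) y := by
  classical
  have key : ∀ F G : Finset ι, (∀ i, i ∉ F → GF.evm b K (f i) y = 0) → F ⊆ G →
      ∑ i ∈ F, GF.evm b K (f i ≫ S.inj i) y = ∑ i ∈ G, GF.evm b K (f i ≫ S.inj i) y := by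
    intro F G hF hFG
    refine Finset.sum_subset hFG fun i _ hi => ?_
    rw [GF.evm_comp, hF i hi, map_zero]
  have h0 := (hf b K y).choose_spec
  exact (key _ ((hf b K y).choose ∪ F) h0 Finset.subset_union_left).trans
    (key _ ((hf b K y).choose ∪ F) hF Finset.subset_union_right).symm

/-- Maps to a sum can be given by locally finite families. -/
theorem sum_lift (S : IsSum X A) {Y : GF} (f : ∀ i, Y ⟶ X i) (hf : LF f) :
    ∃ Φ : Y ⟶ A, ∀ i, Φ ≫ S.pr i = f i := by
  classical
  refine ⟨mkHom Y A (fun b K => AddMonoidHom.mk' (fun y => liftFun S f hf y) ?_) ?_ ?_, ?_⟩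
  · intro x y
    obtain ⟨F, hF⟩ := hf b K x
    obtain ⟨G, hG⟩ := hf b K y
    have hx : ∀ i, i ∉ F ∪ G → GF.evm b K (f i) x = 0 := fun i hi =>
      hF i fun h => hi (Finset.mem_union_left _ h)
    have hy : ∀ i, i ∉ F ∪ G → GF.evm b K (f i) y = 0 := fun i hi =>
      hG i fun h => hi (Finset.mem_union_right _ h)
    have hxy : ∀ i, i ∉ F ∪ G → GF.evm b K (f i) (x + y) = 0 := fun i hi => by
      rw [map_add, hx i hi, hy i hi, add_zero]
    rw [liftFun_eq S f hf x _ hx, liftFun_eq S f hf y _ hy, liftFun_eq S f hf (x + y) _ hxy,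
      ← Finset.sum_add_distrib]
    exact Finset.sum_congr rfl fun i _ => map_add _ _ _
  · intro b K L g y
    obtain ⟨F, hF⟩ := hf b L y
    have h1 : ∀ i, i ∉ F → GF.evm b K (f i) ((Y.h b).map g.op y) = 0 := fun i hi => by
      rw [evm_map, hF i hi]
      exact map_zero ((X i).h b |>.map g.op).hom
    change liftFun S f hf ((Y.h b).map g.op y) = (A.h b).map g.op (liftFun S f hf y)
    rw [liftFun_eq S f hf y F hF, liftFun_eq S f hf _ F h1]
    refine Eq.symm ((map_sum ((A.h b).map g.op).hom _ _).trans ?_)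
    exact Finset.sum_congr rfl fun i _ => (evm_map (f i ≫ S.inj i) g y).symm
  · intro b K y
    obtain ⟨F, hF⟩ := hf b K y
    have h1 : ∀ i, i ∉ F → GF.evm (b + 1) (Test.cx.obj K) (f i) ((Y.σ b).hom.app (op K) y) = 0 :=
      fun i hi => by
        rw [evm_σ, hF i hi]
        exact map_zero (((X i).σ b).hom.app (op K)).hom
    change liftFun S f hf (b := b + 1) (K := Test.cx.obj K) ((Y.σ b).hom.app (op K) y) =
      (A.σ b).hom.app (op K) (liftFun S f hf y)
    rw [liftFun_eq S f hf y F hF, liftFun_eq S f hf _ F h1]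
    refine Eq.symm ((map_sum ((A.σ b).hom.app (op K)).hom _ _).trans ?_)
    exact Finset.sum_congr rfl fun i _ => (evm_σ (f i ≫ S.inj i) y).symm
  · intro j
    refine ext_evm fun b K y => ?_
    change GF.evm b K (S.pr j) (liftFun S f hf y) = GF.evm b K (f j) y
    obtain ⟨F, hF⟩ := hf b K y
    have hF' : ∀ i, i ∉ insert j F → GF.evm b K (f i) y = 0 := fun i hi =>
      hF i fun h => hi (Finset.mem_insert_of_mem h)
    rw [liftFun_eq S f hf y _ hF', map_sum,
      Finset.sum_eq_single_of_mem j (Finset.mem_insert_self _ _)]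
    · rw [← GF.evm_comp, Category.assoc, S.inj_pr, Category.comp_id]
    · intro i _ hij
      rw [← GF.evm_comp, Category.assoc, S.inj_pr_ne i j hij, Limits.comp_zero, GF.evm_zero]

/-- reindexing -/
def reindex (S : IsSum X A) (e : κ ≃ ι) : IsSum (fun k => X (e k)) A where
  inj k := S.inj (e k)
  pr k := S.pr (e k)
  inj_pr k := S.inj_pr (e k)
  inj_pr_ne i j h := S.inj_pr_ne _ _ fun h' => h (e.injective h')
  fin b K x := by
    obtain ⟨F, hF⟩ := S.fin' x
    refine ⟨F.map e.symm.toEmbedding, hF.trans ?_⟩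
    rw [Finset.sum_map]
    refine Finset.sum_congr rfl fun i _ => ?_
    have h1 : ∀ j, j = i → GF.evm b K (S.pr i ≫ S.inj i) x = GF.evm b K (S.pr j ≫ S.inj j) x := by
      rintro j rfl
      rfl
    exact h1 _ (e.apply_symm_apply i)

/-- sums of isomorphic families are isomorphic -/
theorem sum_iso {Y : ι → GF} {B : GF} (S : IsSum X A) (T : IsSum Y B) (e : ∀ i, X i ≅ Y i) :
    Nonempty (A ≅ B) := by
  obtain ⟨f, hf⟩ := S.desc fun i => (e i).hom ≫ T.inj i
  obtain ⟨g, hg⟩ := T.desc fun i => (e i).inv ≫ S.inj i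
  refine ⟨⟨f, g, sum_hom_ext S fun i => ?_, sum_hom_ext T fun i => ?_⟩⟩
  · rw [← Category.assoc, hf, Category.assoc, hg, Iso.hom_inv_id_assoc, Category.comp_id]
  · rw [← Category.assoc, hg, Category.assoc, hf, Iso.inv_hom_id_assoc, Category.comp_id]

/-- a sum of retracts is a retract -/
theorem sum_ret {Y : ι → GF} {B : GF} (S : IsSum X A) (T : IsSum Y B) (h : ∀ i, Ret (X i) (Y i)) :
    Ret A B := by
  choose i r hir using h
  obtain ⟨f, hf⟩ := S.desc fun k => i k ≫ T.inj k
  obtain ⟨g, hg⟩ := T.desc fun k => r k ≫ S.inj k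
  refine ⟨f, g, sum_hom_ext S fun k => ?_⟩
  rw [← Category.assoc, hf, Category.assoc, hg, ← Category.assoc, hir, Category.id_comp,
    Category.comp_id]

end

end Pool.Agent.Helper84.Int
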